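import Pool.Agent.Lib.MP_12eca1_ag.C.Zero
import Pool.Agent.Lib.MP_dda4e9_nt.LbG

/-! Integrality, moment bounds and the box principle. -/

namespace Pool.Agent.Lib.MP_12eca1_ag.CM

open Polynomial Finset
open scoped Nat

theorem ap_dvd (q : ℕ) (u : ℤ) (j : ℕ) :
    (j ! : ℤ) ∣ (q : ℤ) ^ j * ∏ t ∈ range j, (u + t * q) := by
  rw [Int.natCast_dvd]
  refine (Nat.dvd_iff_prime_pow_dvd_dvd _ _).2 fun p e hp he => ?_
  rw [← Int.natCast_dvd]
  by_cases h : p ∣ q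
  · have h1 : e ≤ j := ((hp.pow_dvd_iff_le_factorization j.factorial_ne_zero).1 he).trans
      ((Nat.factorization_factorial_le_div_pred hp j).trans (Nat.div_le_self _ _))
    refine Dvd.dvd.mul_right ?_ _
    exact_mod_cast (pow_dvd_pow p h1).trans (pow_dvd_pow_of_dvd h j)
  · obtain ⟨v, w, hv⟩ : IsCoprime (q : ℤ) ((p ^ e : ℕ) : ℤ) :=
      Nat.isCoprime_iff_coprime.2 (((Nat.Prime.coprime_iff_not_dvd hp).2 h).symm.pow_right e)
    refine Dvd.dvd.mul_left ?_ _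
    have h2 : ∏ t ∈ range j, ((q : ℤ) * (u * v + t)) ≡ ∏ t ∈ range j, (u + t * q)
        [ZMOD ((p ^ e : ℕ) : ℤ)] := Int.ModEq.prod fun t _ =>
      Int.modEq_iff_dvd.2 ⟨u * w, by linear_combination (-u) * hv⟩
    refine (h2.dvd_iff).1 ?_
    rw [prod_mul_distrib]
    exact Dvd.dvd.mul_left ((Int.natCast_dvd_natCast.2 he).trans
      (Nat.factorial_coe_dvd_prod j (u * v))) _

theorem beta_int {L : ℕ} (j : ℕ) : ∀ i, i + j + 1 ≤ L →
    ∃ z : ℤ, (z : ℝ) = Nat.lcmUpto L * (i ! * j ! / (i + j + 1)! : ℝ) := by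
  induction j with
  | zero =>
    intro i hi
    obtain ⟨c, hc⟩ : i + 1 ∣ Nat.lcmUpto L := Finset.dvd_lcm (f := id) (mem_Icc.2 ⟨by omega, hi⟩)
    refine ⟨c, ?_⟩
    rw [hc, Nat.factorial_succ]
    push_cast [Nat.factorial_zero, add_zero]
    field_simp
  | succ j ih =>
    intro i hi
    obtain ⟨a, ha⟩ := ih i (by omega)
    obtain ⟨b, hb⟩ := ih (i + 1) (by omega)
    refine ⟨a - b, ?_⟩
    rw [Int.cast_sub, ha, hb, show i + 1 + j + 1 = i + j + 1 + 1 by omega,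
      show i + (j + 1) + 1 = i + j + 1 + 1 by omega, Nat.factorial_succ (i + j + 1),
      Nat.factorial_succ i, Nat.factorial_succ j]
    push_cast
    field_simp
    ring

theorem wi_Ico (q : ℕ) (b a : ℤ) (j : ℕ) (x : ℤ) :
    ∃ z : ℤ, (q : ℤ) ^ j * wi q b (Ico a (a + j)) x = j ! * z := by
  have : wi q b (Ico a (a + j)) x = ∏ t ∈ range j, (b + a * q - x + t * q) := by
    induction j with
    | zero => simp [wi]
    | succ j ih =>
      rw [prod_range_succ, ← ih, wi, wi, prod_Ico_split _ (c := a + j) (by omega) (by omega)]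
      push_cast
      rw [← add_assoc, Ico_add_one_right_eq_Icc, Icc_self, prod_singleton]; ring
  rw [this]; exact ap_dvd q _ j

noncomputable def N1 (q L : ℕ) : ℝ := Nat.lcmUpto L * q ^ L / L !

theorem N1_pos {q : ℕ} (hq : 0 < q) (L : ℕ) : 0 < N1 q L := by
  have := Nat.lcmUpto_pos L
  unfold N1; positivity

theorem int_erase (q : ℕ) (b a : ℤ) (L : ℕ) (x : ℤ) {i : ℤ} (hi : i ∈ Ico a (a + L)) :
    ∃ z : ℤ, (z : ℝ) = N1 q L * wi q b ((Ico a (a + L)).erase i) x := by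
  obtain ⟨h1, h2⟩ := mem_Ico.1 hi
  obtain ⟨u, rfl⟩ := Int.le.dest h1
  obtain ⟨v, hv⟩ : ∃ v : ℕ, L = u + v + 1 := ⟨L - u - 1, by omega⟩
  have e : (Ico a (a + L)).erase (a + u) = Ico a (a + u) ∪ Ico (a + u + 1) (a + u + 1 + v) := by
    ext t; simp only [mem_erase, mem_Ico, mem_union]; omega
  obtain ⟨z1, e1⟩ := wi_Ico q b a u x
  obtain ⟨z2, e2⟩ := wi_Ico q b (a + u + 1) v x
  obtain ⟨z3, e3⟩ := beta_int (L := L) v u hv.ge
  refine ⟨z3 * z1 * z2 * q, ?_⟩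
  rw [e, wi, prod_union (disjoint_left.2 fun t h h' => by
    simp only [mem_Ico] at h h'; omega)]
  have f1 := congrArg (Int.cast (R := ℝ)) e1
  have f2 := congrArg (Int.cast (R := ℝ)) e2
  simp only [wi] at f1 f2
  rw [← hv] at e3
  push_cast at f1 f2 ⊢
  rw [e3, N1, show (q : ℝ) ^ L = q ^ u * q ^ v * q by rw [hv]; ring]
  linear_combination (-(Nat.lcmUpto L : ℝ) * q / L ! * (v ! * z2)) * f1 -
    (Nat.lcmUpto L : ℝ) * q / L ! * (q ^ u * ∏ i ∈ Ico a (a + u), ((b : ℝ) + i * q - x)) * f2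

def Mom (X : Finset ℤ) (ρ : ℝ) (f : ℤ → ℝ) (δ : ℝ) : Prop :=
  ∀ e : ℕ, |∑ x ∈ X, f x * (x : ℝ) ^ e| ≤ δ * ρ ^ e

def Mu (X : Finset ℤ) (ρ : ℝ) (g : ℤ → ℝ) (K : ℝ) : Prop :=
  0 ≤ K ∧ ∀ f δ, 0 ≤ δ → Mom X ρ f δ → Mom X ρ (fun x => f x * g x) (δ * K)

variable {X : Finset ℤ} {ρ K K' : ℝ} {g g' : ℤ → ℝ}

theorem Mu.mono (hρ : 0 ≤ ρ) (h : Mu X ρ g K) (hK : K ≤ K') : Mu X ρ g K' :=
  ⟨h.1.trans hK, fun f δ h1 h2 e => (h.2 f δ h1 h2 e).trans (by gcongr)⟩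

theorem Mu.mul (h : Mu X ρ g K) (h' : Mu X ρ g' K') :
    Mu X ρ (fun x => g x * g' x) (K * K') :=
  ⟨mul_nonneg h.1 h'.1, fun f δ h1 h2 => by
    simpa only [mul_assoc] using h'.2 _ _ (mul_nonneg h1 h.1) (h.2 f δ h1 h2)⟩

theorem mu_const (c : ℝ) : Mu X ρ (fun _ => c) |c| :=
  ⟨abs_nonneg c, fun f δ _ h2 e => by
    simp only [mul_right_comm _ c, mul_right_comm _ |c|, ← sum_mul, abs_mul]
    exact mul_le_mul_of_nonneg_right (h2 e) (abs_nonneg c)⟩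

theorem mu_prod {ι : Type*} (s : Finset ι) {g : ι → ℤ → ℝ} (h : ∀ i ∈ s, Mu X ρ (g i) K) :
    Mu X ρ (fun x => ∏ i ∈ s, g i x) (K ^ s.card) := by
  classical
  induction s using Finset.induction_on with
  | empty => simpa using mu_const (X := X) (ρ := ρ) 1
  | insert a s ha ih =>
    simp only [prod_insert ha, card_insert_of_notMem ha, pow_succ']
    exact (h a (mem_insert_self _ _)).mul (ih fun i hi => h i (mem_insert_of_mem hi))

theorem Mu.pow (h : Mu X ρ g K) (k : ℕ) : Mu X ρ (fun x => g x ^ k) (K ^ k) := by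
  simpa using mu_prod (range k) (g := fun _ => g) fun _ _ => h

theorem mu_lin (hρ : 0 ≤ ρ) (a : ℝ) : Mu X ρ (fun x => a - x) (|a| + ρ) :=
  ⟨by positivity, fun f δ h1 h2 e => by
    have : ∑ x ∈ X, f x * (a - x) * (x : ℝ) ^ e =
        a * ∑ x ∈ X, f x * (x : ℝ) ^ e - ∑ x ∈ X, f x * (x : ℝ) ^ (e + 1) := by
      rw [mul_sum, ← sum_sub_distrib]; exact sum_congr rfl fun x _ => by ring
    rw [this]
    refine (abs_sub _ _).trans ?_
    rw [abs_mul]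
    refine (add_le_add (mul_le_mul_of_nonneg_left (h2 e) (abs_nonneg a)) (h2 _)).trans_eq ?_
    ring⟩

theorem mu_inv (hρ : 0 ≤ ρ) (hX : ∀ x ∈ X, |(x : ℝ)| ≤ ρ) {y : ℝ} (hy : ρ < |y|) :
    Mu X ρ (fun x => (y - x)⁻¹) (|y| - ρ)⁻¹ := by
  have hy0 : 0 < |y| := hρ.trans_lt hy
  have hy1 : y ≠ 0 := abs_pos.1 hy0
  refine ⟨inv_nonneg.2 (sub_pos.2 hy).le, fun f δ h1 h2 e => ?_⟩
  have h3 : HasSum (fun d : ℕ => ∑ x ∈ X, f x * (x : ℝ) ^ e * y⁻¹ * ((x : ℝ) / y) ^ d)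
      (∑ x ∈ X, f x * (y - x)⁻¹ * (x : ℝ) ^ e) := hasSum_sum fun x hx => by
    have h4 : |(x : ℝ) / y| < 1 := by rw [abs_div, div_lt_one hy0]; exact (hX x hx).trans_lt hy
    have h5 : y - x ≠ 0 := fun h => by
      have := hX x hx
      rw [← sub_eq_zero.1 h] at this; linarith
    have h7 : f x * (y - x)⁻¹ * (x : ℝ) ^ e = f x * (x : ℝ) ^ e * y⁻¹ * (1 - x / y)⁻¹ := by
      field_simp
    rw [h7]
    exact (hasSum_geometric_of_abs_lt_one h4).mul_left _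
  have h6 : HasSum (fun d : ℕ => δ * ρ ^ e * |y|⁻¹ * (ρ / |y|) ^ d) (δ * (|y| - ρ)⁻¹ * ρ ^ e) := by
    have h7 : δ * (|y| - ρ)⁻¹ * ρ ^ e = δ * ρ ^ e * |y|⁻¹ * (1 - ρ / |y|)⁻¹ := by
      have := sub_pos.2 hy
      field_simp
    rw [h7]
    exact (hasSum_geometric_of_lt_one (by positivity) ((div_lt_one hy0).2 hy)).mul_left _
  rw [← h3.tsum_eq, ← Real.norm_eq_abs]
  refine tsum_of_norm_bounded h6 fun d => ?_
  have : ∑ x ∈ X, f x * (x : ℝ) ^ e * y⁻¹ * ((x : ℝ) / y) ^ d =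
      (∑ x ∈ X, f x * (x : ℝ) ^ (e + d)) * (y⁻¹) ^ (d + 1) := by
    rw [sum_mul]; exact sum_congr rfl fun x _ => by ring
  rw [this, Real.norm_eq_abs, abs_mul, abs_pow, abs_inv]
  exact (mul_le_mul_of_nonneg_right (h2 _) (by positivity)).trans_eq (by ring)

theorem Mu.sum_le (h : Mu X ρ g K) {f : ℤ → ℝ} {δ : ℝ} (hδ : 0 ≤ δ) (hf : Mom X ρ f δ) :
    |∑ x ∈ X, f x * g x| ≤ δ * K := by simpa using h.2 f δ hδ hf 0

theorem Mu.abs_le (h : Mu X ρ g K) (hX : ∀ x ∈ X, |(x : ℝ)| ≤ ρ) {x : ℤ} (hx : x ∈ X) :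
    |g x| ≤ K := by
  have := h.sum_le (f := fun t => if t = x then 1 else 0) zero_le_one fun e => by
    simp only [ite_mul, one_mul, zero_mul, sum_ite_eq', hx, if_true, abs_pow]
    exact pow_le_pow_left₀ (abs_nonneg _) (hX x hx) e
  simpa [hx] using this

theorem mu_wi (hρ : 0 ≤ ρ) (q : ℕ) (b : ℤ) (s : Finset ℤ) {R : ℝ} (h1 : 1 ≤ R + ρ) {L : ℕ}
    (hL : s.card ≤ L) (h : ∀ i ∈ s, |((b + i * q : ℤ) : ℝ)| ≤ R) :
    Mu X ρ (fun x => wi q b s x) ((R + ρ) ^ L) := by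
  have := mu_prod (X := X) s (g := fun i x => ((b + i * q : ℤ) : ℝ) - x) fun i hi =>
    (mu_lin hρ _).mono hρ (add_le_add_left (h i hi) ρ)
  simpa [wi] using this.mono hρ (pow_le_pow_right₀ h1 hL)

open MP_dda4e9_nt.LB Matrix in
theorem count' {ι κ β : Type*} [Fintype ι] [Fintype κ] (B : κ → ι → ℚ)
    (hB : LinearIndependent ℚ B) (H : ℕ) (Φ : (ι → Fin (H + 1)) → β) (T : Finset β)
    (hT : ∀ J, Φ J ∈ T) (h : ∀ J J', Φ J = Φ J' →
      ∀ k, ∑ i, B k i * (((J i : ℕ) - (J' i : ℕ) : ℤ) : ℚ) = 0) :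
    (H + 1) ^ Fintype.card κ ≤ T.card := by
  classical
  obtain ⟨Q, I, p1, p2, p3, p4⟩ := greedy (Set.range B)
  have h1 : Fintype.card κ ≤ Iᶜ.card := by
    have h2 : ∀ k, B k ∈ Submodule.span ℚ ((Iᶜ.image Q : Finset (ι → ℚ)) : Set (ι → ℚ)) :=
      fun k => by
        have : B k = ∑ i, (Q.det⁻¹ * (Q.updateRow i (B k)).det) • Q i := by
          ext j
          simp only [Finset.sum_apply, Pi.smul_apply, smul_eq_mul, mul_assoc, ← mul_sum,
            ← MP_dda4e9_nt.LB.expand, inv_mul_cancel_left₀ p1]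
        rw [this]
        refine Submodule.sum_mem _ fun i _ => ?_
        by_cases hi : i ∈ I
        · simp [p4 i hi _ ⟨k, rfl⟩]
        · exact Submodule.smul_mem _ _ (Submodule.subset_span
            (mem_coe.2 (mem_image_of_mem Q (mem_compl.2 hi))))
    have h3 := (LinearIndependent.of_comp (Submodule.subtype _)
      (v := fun k => (⟨B k, h2 k⟩ : Submodule.span ℚ _)) hB).fintype_card_le_finrank
    exact h3.trans ((finrank_span_finset_le_card _).trans card_image_le)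
  let Ψ : (ι → Fin (H + 1)) → T × (I → Fin (H + 1)) := fun J => (⟨Φ J, hT J⟩, fun i => J i)
  have hΨ : Function.Injective Ψ := fun J J' hJ => by
    have e2 : ∀ i ∈ I, J i = J' i := fun i hi => congrFun (congrArg Prod.snd hJ) ⟨i, hi⟩
    have e3 := h J J' (congrArg Subtype.val (congrArg Prod.fst hJ))
    have e4 : Q *ᵥ (fun i => (((J i : ℕ) - (J' i : ℕ) : ℤ) : ℚ)) = 0 := funext fun i => by
      by_cases hi : i ∈ I
      · simp [mulVec, p2 i hi, e2 i hi]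
      · obtain ⟨k, hk⟩ := p3 i hi
        simpa only [mulVec, dotProduct, ← hk, Pi.zero_apply] using e3 k
    have e5 := eq_zero_of_mulVec_eq_zero p1 e4
    ext i
    have := congrFun e5 i
    simp only [Pi.zero_apply, Int.cast_eq_zero] at this
    omega
  have h4 := Fintype.card_le_of_injective Ψ hΨ
  simp only [Fintype.card_fun, Fintype.card_fin, Fintype.card_prod, Fintype.card_coe] at h4
  rw [← card_compl_add_card I, pow_add] at h4
  exact (Nat.pow_le_pow_right (Nat.succ_pos _) h1).trans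
    (Nat.le_of_mul_le_mul_right h4 (by positivity))

theorem siegelR {ι : Type*} [Fintype ι] (θ : ι → ℝ) (d : ℕ)
    (hd : Module.finrank ℚ (Submodule.span ℚ (Set.range θ)) ≤ d)
    (h1 : (1 : ℝ) ∈ Set.range θ) :
    ∃ c : ℝ, 0 < c ∧ ∀ Q ε : ℝ, 1 ≤ Q → 0 ≤ ε → ∀ F : Set ℝ,
      (∀ f ∈ F, |f| ≤ ε ∧ ∃ l : ι → ℤ, (∀ i, (|l i| : ℝ) ≤ Q) ∧ f = ∑ i, l i * θ i) →
      (1 : ℝ) ∈ Submodule.span ℚ F → 1 ≤ c * Q ^ d * ε := by
  let j : ℝ →ₗ[ℚ] ℂ := Complex.ofRealAm.toLinearMap.restrictScalars ℚ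
  have : FiniteDimensional ℚ (Submodule.span ℚ (Set.range θ)) :=
    FiniteDimensional.span_of_finite ℚ (Set.finite_range θ)
  obtain ⟨c, hc, h⟩ := MP_dda4e9_nt.LB.siegel (j ∘ θ) d (by
    rw [Set.range_comp, ← Submodule.map_span]
    exact (Submodule.finrank_map_le _ _).trans hd) (by
    obtain ⟨i, hi⟩ := h1
    exact Submodule.subset_span ⟨i, by simp [j, hi]⟩)
  refine ⟨c, hc, fun Q ε hQ hε F hF h2 => h Q ε hQ hε (j '' F) ?_ ?_⟩
  · rintro _ ⟨f, hf, rfl⟩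
    obtain ⟨f1, l, f2, f3⟩ := hF f hf
    exact ⟨by simpa [j] using f1, l, f2, by simp [j, f3]⟩
  · rw [← Submodule.map_span]
    exact ⟨1, h2, by simp [j]⟩

theorem lcm_le (L : ℕ) : (Nat.lcmUpto L : ℝ) ≤ 2 ^ (8 * L) := by
  have h := Chebyshev.psi_le_const_mul_self (x := L) L.cast_nonneg
  have h2 := Real.log_two_gt_d9
  have h4 : Real.log 4 = 2 * Real.log 2 := by
    rw [show (4 : ℝ) = 2 ^ 2 by norm_num, Real.log_pow]; norm_num
  have h5 : (0 : ℝ) < Nat.lcmUpto L := by exact_mod_cast Nat.lcmUpto_pos L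
  rw [Chebyshev.psi_eq_log_lcmUpto] at h
  have h3 : Real.log (Nat.lcmUpto L) ≤ Real.log (2 ^ (8 * L)) := by
    rw [Real.log_pow]
    push_cast
    nlinarith [L.cast_nonneg (α := ℝ)]
  exact (Real.log_le_log_iff h5 (by positivity)).1 h3

end Pool.Agent.Lib.MP_12eca1_ag.CM
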