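import Pool.Agent.Lib.MP_12eca1_ag.C.Main

/-! Double counting, the choice of the parameters and the Hurwitz form. -/

namespace Pool.Agent.Lib.MP_12eca1_ag.CM

open Finset

variable {q k : ℕ} {γ : ℝ}

theorem kst [NeZero q] (G : Finset (Fin q)) (S N : ℕ)
    (h : ∀ B P : Finset (Fin q), B.card = S → P.card = N + 1 → ∃ b ∈ B, ∃ p ∈ P, b - p ∉ G) :
    q * G.card.choose S ≤ q.choose S * N := by
  classical
  have := card_mul_le_card_mul (s := univ) (t := powersetCard S (univ : Finset (Fin q)))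
    (fun (p : Fin q) B => ∀ b ∈ B, b - p ∈ G) (m := G.card.choose S) (n := N)
    (fun p _ => ?_) fun B hB => ?_
  · simpa using this
  · rw [← card_map (Equiv.addRight p).toEmbedding, ← card_powersetCard]
    refine card_le_card fun B hB => ?_
    obtain ⟨h1, h2⟩ := mem_powersetCard.1 hB
    refine (mem_bipartiteAbove _).2 ⟨mem_powersetCard.2 ⟨subset_univ _, h2⟩, fun b hb => ?_⟩
    obtain ⟨g, hg, rfl⟩ := mem_map.1 (h1 hb)
    simpa using hg
  · by_contra hc
    obtain ⟨P, b1, b2⟩ := exists_subset_card_eq (not_le.1 hc)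
    obtain ⟨b, hb, p, hp, h3⟩ := h B P (mem_powersetCard.1 hB).2 b2
    exact h3 (((mem_bipartiteBelow _).1 (b1 hp)).2 b hb)

theorem choose_ge {g m N : ℕ} (h : g + m = q) {x : ℝ} (hx : 0 ≤ x)
    (h1 : ∀ j < N, x * (q - j) ≤ q - j - m) (hN : N ≤ q) :
    x ^ N * q.choose N ≤ g.choose N := by
  have h2 : ∀ j ≤ N, x ^ j * q.descFactorial j ≤ g.descFactorial j := fun j hj => by
    induction j with
    | zero => simp
    | succ j ih =>
      have h3 : x * ((q - j : ℕ) : ℝ) ≤ ((g - j : ℕ) : ℝ) := by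
        rw [Nat.cast_sub (by omega)]
        refine (h1 j hj).trans ?_
        have : (q : ℤ) - j - m ≤ ((g - j : ℕ) : ℤ) := by omega
        exact_mod_cast this
      rw [Nat.descFactorial_succ, Nat.descFactorial_succ, Nat.cast_mul, Nat.cast_mul, pow_succ]
      calc _ = x * ((q - j : ℕ) : ℝ) * (x ^ j * q.descFactorial j) := by ring
        _ ≤ _ := mul_le_mul h3 (ih (by omega)) (by positivity) (by positivity)
  have h4 := h2 N le_rfl
  rw [Nat.descFactorial_eq_factorial_mul_choose, Nat.descFactorial_eq_factorial_mul_choose,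
    Nat.cast_mul, Nat.cast_mul, mul_left_comm] at h4
  exact le_of_mul_le_mul_left h4 (by positivity)

theorem params {E : ℕ} (hk : 2 ≤ k) (hE : 1 ≤ E) {R : ℝ} (hR : R = 3000 * k * Real.log q * E)
    (hR0 : 2 ^ 10 ≤ R) (h1 : R < q) : ∃ t β S : ℕ, 0 < t ∧
      (9 * q * (2 ^ 74 * q ^ 16) : ℝ) ^ (k * t) ≤ (2 * t : ℕ) ^ β ∧ 2 ≤ β ∧
      25 * E * β ≤ S * (k * t) ∧ 9 ≤ S ∧ 3 * (S * k) ≤ R ∧
      2 * (S * k * Real.log (q / R)) ≤ R ∧ 2 * t ≤ 3 * Real.exp (Real.log (q / R) / 2) := by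
  have l2 := Real.log_two_gt_d9
  have hk' : (2 : ℝ) ≤ k := by exact_mod_cast hk
  have hE' : (1 : ℝ) ≤ E := by exact_mod_cast hE
  have hq10 : (2 : ℝ) ^ 10 ≤ q := by linarith
  set L := Real.log q with hL
  set y := Real.log (q / R) with hy
  have hy0 : 0 < y := Real.log_pos ((one_lt_div (by linarith)).2 h1)
  have hyL : y ≤ L := Real.log_le_log (by positivity) (div_le_self (by positivity) (by linarith))
  have hL10 : 10 * Real.log 2 ≤ L := by
    rw [← Nat.cast_ofNat, ← Real.log_pow]; exact Real.log_le_log (by positivity) hq10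
  have hLE : L ≤ L * E := le_mul_of_one_le_right (by linarith) hE'
  set w := Real.exp (y / 2) with hw
  have hw1 : 1 ≤ w := Real.one_le_exp (by linarith)
  obtain ⟨t, ht0, ht1, ht2⟩ : ∃ t : ℕ, 0 < t ∧ w ≤ 2 * t ∧ 2 * t ≤ 3 * w := by
    refine ⟨⌈w / 2⌉₊, Nat.ceil_pos.2 (by linarith), by linarith [Nat.le_ceil (w / 2)], ?_⟩
    linarith [Nat.ceil_lt_add_one (show 0 ≤ w / 2 by linarith)]
  have ht' : (1 : ℝ) ≤ t := by exact_mod_cast ht0
  set l := Real.log (2 * t) with hl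
  have hl1 : Real.log 2 ≤ l := Real.log_le_log two_pos (by linarith)
  have hl0 : 0 < l := by linarith
  have hl2 : y / 2 ≤ l := (Real.le_log_iff_exp_le (by linarith)).2 ht1
  have hl3 : l ≤ L := by
    have h3 : l ≤ Real.log (3 * w) := Real.log_le_log (by linarith) ht2
    rw [Real.log_mul (by norm_num) (by linarith), hw, Real.log_exp] at h3
    linarith [Real.log_le_sub_one_of_pos (show (0 : ℝ) < 3 by norm_num)]
  have hkt : L ≤ k * t * L := le_mul_of_one_le_left (by linarith)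
    (one_le_mul_of_one_le_of_one_le (by linarith) ht')
  obtain ⟨β, b1, b2⟩ : ∃ β : ℕ, 25 * (k * t * L) ≤ β * l ∧ β * l ≤ 26 * (k * t * L) := by
    have h3 := Nat.ceil_lt_add_one (show 0 ≤ 25 * (k * t * L) / l by positivity)
    rw [div_add_one hl0.ne', lt_div_iff₀ hl0] at h3
    exact ⟨_, (div_le_iff₀ hl0).1 (Nat.le_ceil _), by linarith⟩
  obtain ⟨S, s1, s2⟩ : ∃ S : ℕ, 650 * (L * E) ≤ S * l ∧ S * l ≤ 651 * (L * E) := by
    have h3 := Nat.ceil_lt_add_one (show 0 ≤ 650 * (L * E) / l by positivity)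
    rw [div_add_one hl0.ne', lt_div_iff₀ hl0] at h3
    exact ⟨_, (div_le_iff₀ hl0).1 (Nat.le_ceil _), by linarith⟩
  have s4 : 3000 * (S * k * l) ≤ 651 * R := by
    rw [hR]; linarith [mul_le_mul_of_nonneg_left s2 (by positivity : (0 : ℝ) ≤ k)]
  have s5 := mul_le_mul_of_nonneg_left (l2.le.trans hl1) (by positivity : (0 : ℝ) ≤ S * k)
  have s6 := mul_le_mul_of_nonneg_left hl2 (by positivity : (0 : ℝ) ≤ S * k)
  have s7 : (0 : ℝ) ≤ S * k := by positivity
  refine ⟨t, β, S, ht0, ?_, ?_, ?_, ?_, by linarith, by linarith, ht2⟩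
  · calc (9 * q * (2 ^ 74 * q ^ 16) : ℝ) ^ (k * t) ≤ (q ^ 8 * q ^ 17) ^ (k * t) := by
          have := pow_le_pow_left₀ (by positivity) hq10 8
          refine pow_le_pow_left₀ (by positivity) ?_ _
          calc (9 * q * (2 ^ 74 * q ^ 16) : ℝ) = 9 * 2 ^ 74 * q ^ 17 := by ring
            _ ≤ _ := by gcongr; exact le_trans (by norm_num) this
      _ ≤ _ := by
          rw [← pow_add, ← pow_mul, ← Real.log_le_log_iff (by positivity) (by positivity),
            Real.log_pow, Real.log_pow]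
          push_cast
          linarith
  · have : (2 : ℝ) ≤ β := le_of_mul_le_mul_right (by linarith) hl0
    exact_mod_cast this
  · have : (25 * E * β : ℝ) ≤ S * (k * t) := le_of_mul_le_mul_right (by
      linarith [mul_le_mul_of_nonneg_left b2 (by positivity : (0 : ℝ) ≤ E),
        mul_le_mul_of_nonneg_left s1 (by positivity : (0 : ℝ) ≤ k * t)]) hl0
    exact_mod_cast this
  · have : (9 : ℝ) ≤ S := le_of_mul_le_mul_right (by linarith) hl0
    exact_mod_cast this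

theorem count_ineq {g E : ℕ} (hg : g ≤ q) (hk : 2 ≤ k) (hq : 2 ≤ q) (hE : 1 ≤ E) {R : ℝ}
    (hR : R = 3000 * k * Real.log q * E)
    (h : ∀ t β S N : ℕ, 0 < t → (S + 9) * (k * t) < 2 * (N + 1) →
      (9 * q * (2 ^ 74 * q ^ 16) : ℝ) ^ (k * t) ≤ (2 * t : ℕ) ^ β → 2 ≤ β →
      25 * E * β ≤ S * (k * t) → q * g.choose S ≤ q.choose S * N) :
    g ≤ R + (q - R) * Real.exp (-(k * Real.log (q / R) ^ 2 / R)) := by
  have l2 := Real.log_two_gt_d9
  have hk' : (2 : ℝ) ≤ k := by exact_mod_cast hk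
  have hg' : (g : ℝ) ≤ q := by exact_mod_cast hg
  have h2 : Real.log 2 ≤ Real.log q := Real.log_le_log two_pos (by exact_mod_cast hq)
  have hR1 : 2 ^ 10 ≤ R := by
    rw [hR]
    refine le_trans ?_ (le_mul_of_one_le_right (by positivity) (by exact_mod_cast hE))
    nlinarith
  have hR0 : 0 < R := by linarith
  set y := Real.log (q / R) with hy
  set x := Real.exp (-(k * y ^ 2 / R)) with hx
  have hx0 : 0 < x := Real.exp_pos _
  have hx1 : x ≤ 1 := Real.exp_le_one_iff.2 (neg_nonpos.2 (by positivity))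
  rcases le_or_gt (q : ℝ) R with h1 | h1
  · nlinarith
  by_contra hc
  obtain ⟨t, β, S, ht, p1, p2, p3, p4, p5, p6, p7⟩ := params hk hE hR hR1 h1
  have h3 := h t β S ((S + 9) * (k * t) / 2) ht (by omega) p1 p2 p3
  obtain ⟨m, hm⟩ := Nat.le.dest hg
  have hm' : (g : ℝ) + m = q := by exact_mod_cast hm
  have hS : (9 : ℝ) ≤ S := by exact_mod_cast p4
  have s6 : (S : ℝ) ≤ R := by nlinarith
  have hSq : S ≤ q := by exact_mod_cast s6.trans h1.le
  have h4 := choose_ge hm hx0.le (N := S) (fun j hj => by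
    have : (j : ℝ) ≤ S := by exact_mod_cast hj.le
    linarith [mul_le_mul_of_nonneg_right hx1 (show 0 ≤ R - j by linarith)]) hSq
  have h5 : (0 : ℝ) < q.choose S := by exact_mod_cast Nat.choose_pos hSq
  have h6 : (q : ℝ) * g.choose S ≤ q.choose S * ((S + 9) * (k * t) / 2) :=
    le_trans (by exact_mod_cast h3) (mul_le_mul_of_nonneg_left
      (Nat.cast_div_le.trans_eq (by push_cast; rfl)) h5.le)
  have h7 : q * x ^ S ≤ (S + 9) * (k * t) / 2 := le_of_mul_le_mul_left (a := (q.choose S : ℝ))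
    (by linarith [mul_le_mul_of_nonneg_left h4 q.cast_nonneg]) h5
  rw [← hy] at p6 p7
  set w := Real.exp (y / 2) with hw
  have hw0 : 0 < w := Real.exp_pos _
  have h8 : w⁻¹ ≤ x ^ S := by
    rw [hw, hx, ← Real.exp_nat_mul, ← Real.exp_neg, Real.exp_le_exp, mul_neg, neg_le_neg_iff,
      ← mul_div_assoc, div_le_iff₀ hR0]
    linarith [mul_le_mul_of_nonneg_left p6 (Real.log_pos ((one_lt_div hR0).2 h1)).le]
  have h9 : q * w⁻¹ = R * w := by
    have : w * w = q / R := by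
      rw [hw, ← Real.exp_add, add_halves, hy, Real.exp_log (div_pos (by linarith) hR0)]
    field_simp at this ⊢
    linarith
  have h10 := mul_le_mul_of_nonneg_left h8 q.cast_nonneg
  have h11 : (S + 9) * (k * t) ≤ (2 * S) * (k * t : ℝ) := by gcongr; linarith
  have h12 : S * k * (2 * t) ≤ S * k * (3 * w) := by gcongr
  linarith [mul_le_mul_of_nonneg_left p5 hw0.le, mul_pos hR0 hw0]

theorem Zf_eq (hk : 2 ≤ k) {a : ℕ} (ha : 0 < a) (haq : a < q) :
    Zf γ q k a = ((q : ℝ) ^ k)⁻¹ * ((1 + γ) * ∑' m : ℕ, 1 / ((m : ℝ) + a / q) ^ k +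
      (γ - 1) * (-1) ^ k * ∑' m : ℕ, 1 / ((m : ℝ) + (1 - a / q)) ^ k) := by
  have hs := Zf_summable (γ := γ) hk (show 0 < q by omega) a
  have hq : (q : ℝ) ≠ 0 := by exact_mod_cast (show q ≠ 0 by omega)
  have h1 : Summable fun m : ℕ => gs γ k (a + (m : ℤ) * q) :=
    hs.comp_injective (i := fun m : ℕ => (m : ℤ)) Nat.cast_injective
  have h2 : Summable fun m : ℕ => gs γ k (a + -((m : ℤ) + 1) * q) :=
    hs.comp_injective (i := fun m : ℕ => -((m : ℤ) + 1)) fun _ _ h => by simpa using h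
  rw [Zf, tsum_of_nat_of_neg_add_one (f := fun i : ℤ => gs γ k (a + i * q)) h1 h2,
    mul_add, ← tsum_mul_left, ← tsum_mul_left, ← tsum_mul_left, ← tsum_mul_left]
  congr 1 <;> refine tsum_congr fun m => ?_
  · rw [gs, Int.sign_eq_one_of_pos (by positivity),
      show (m : ℝ) + a / q = (a + m * q) / q by field_simp; ring]
    push_cast
    rw [div_pow]; field_simp
  · rw [gs, Int.sign_eq_neg_one_of_neg (by nlinarith),
      show (m : ℝ) + (1 - a / q) = -(a + -(m + 1) * q) / q by field_simp; ring]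
    push_cast
    rw [div_pow]
    rcases k.even_or_odd with h | h
    · rw [h.neg_one_pow, h.neg_pow]; field_simp; ring
    · rw [h.neg_one_pow, h.neg_pow]; field_simp; ring

theorem count_upper (hk : 2 ≤ k) (hq : 2 ≤ q) {u v : ℝ} (huv : u ≠ (-1) ^ k * v)
    (V : Submodule ℚ ℝ) [FiniteDimensional ℚ V] (R : ℝ)
    (hR : R = 3000 * k * Real.log q * (1 + Module.finrank ℚ V) ^ 2) :
    ({a : ℕ | 0 < a ∧ a < q ∧ u * ∑' m : ℕ, 1 / ((m : ℝ) + a / q) ^ k +
      v * ∑' m : ℕ, 1 / ((m : ℝ) + (1 - a / q)) ^ k ∈ V}.ncard : ℝ) ≤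
      R + (q - R) * Real.exp (-(k * Real.log (q / R) ^ 2 / R)) := by
  classical
  have : NeZero q := ⟨by omega⟩
  have hd : u - (-1) ^ k * v ≠ 0 := sub_ne_zero.2 huv
  set γ := (u + (-1) ^ k * v) / (u - (-1) ^ k * v) with hγ
  let W := V.map (LinearMap.mulLeft ℚ (((q : ℝ) ^ k)⁻¹ * (2 / (u - (-1) ^ k * v))))
  let G : Finset (Fin q) := univ.filter fun c => c ≠ 0 ∧ Zf γ q k (c : ℕ) ∈ W
  have h1 : {a : ℕ | 0 < a ∧ a < q ∧ u * ∑' m : ℕ, 1 / ((m : ℝ) + a / q) ^ k +
      v * ∑' m : ℕ, 1 / ((m : ℝ) + (1 - a / q)) ^ k ∈ V} ⊆ G.map Fin.valEmbedding := by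
    rintro a ⟨a1, a2, a3⟩
    refine mem_coe.2 (mem_map.2 ⟨⟨a, a2⟩, mem_filter.2 ⟨mem_univ _,
      fun h => a1.ne' (congrArg Fin.val h), _, a3, ?_⟩, rfl⟩)
    rw [LinearMap.mulLeft_apply, Zf_eq hk a1 a2, mul_assoc, hγ]
    generalize ∑' m : ℕ, 1 / ((m : ℝ) + a / q) ^ k = A
    generalize ∑' m : ℕ, 1 / ((m : ℝ) + (1 - a / q)) ^ k = B
    have : ((-1 : ℝ) ^ k) ^ 2 = 1 := by rw [← pow_mul, mul_comm, pow_mul]; simp
    congr 1
    field_simp
    linear_combination (-2 * v * B) * this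
  refine le_trans (Nat.cast_le.2 ((Set.ncard_le_ncard h1 (finite_toSet _)).trans_eq
    (by rw [Set.ncard_coe_finset, card_map]))) (count_ineq (E := (1 + Module.finrank ℚ V) ^ 2)
    ((card_le_univ G).trans_eq (Fintype.card_fin q)) hk hq (one_le_pow₀ (by omega))
    (by rw [hR]; push_cast; rfl) fun t β S N ht hN hβ hβ2 hS =>
      kst G _ _ fun B P hB hP => by_contra fun hc => ?_)
  refine no_diff (γ := γ) hk hq W (Submodule.finrank_map_le _ _) ht hN hβ hβ2 hS
    (B.orderEmbOfFin hB).injective (P.orderEmbOfFin hP).injective fun b p => ?_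
  have h3 : B.orderEmbOfFin hB b - P.orderEmbOfFin hP p ∈ G := by_contra fun h =>
    hc ⟨_, orderEmbOfFin_mem _ _ _, _, orderEmbOfFin_mem _ _ _, h⟩
  generalize B.orderEmbOfFin hB b = x at h3 ⊢
  generalize P.orderEmbOfFin hP p = y at h3 ⊢
  obtain ⟨h4, h⟩ := (mem_filter.1 h3).2
  refine ⟨sub_ne_zero.1 h4, ?_⟩
  rw [Fin.intCast_val_sub_eq_sub_add_ite] at h
  split_ifs at h
  · simpa using h
  · rwa [← one_mul ((q : ℕ) : ℤ), Zf_per] at h

end Pool.Agent.Lib.MP_12eca1_ag.CM
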