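import Pool.Agent.Lib.MP_12eca1_ag.C.Arith

/-! The linear forms: size and height. -/

namespace Pool.Agent.Lib.MP_12eca1_ag.CM

open Finset
open scoped Nat

noncomputable def gs (γ : ℝ) (k : ℕ) (y : ℤ) : ℝ := ((y.sign : ℝ) + γ) / (y : ℝ) ^ k

noncomputable def Zf (γ : ℝ) (q k : ℕ) (c : ℤ) : ℝ := ∑' i : ℤ, gs γ k (c + i * q)

variable {q k n : ℕ} {X : Finset ℤ} {γ : ℝ}

theorem gs_summable (hk : 2 ≤ k) : Summable (gs γ k) := by
  refine ((Real.summable_one_div_int_pow.2 hk).abs.mul_left (1 + |γ|)).of_norm_bounded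
    fun y => ?_
  rw [gs, Real.norm_eq_abs, abs_div, abs_div, abs_one, mul_one_div]
  refine div_le_div_of_nonneg_right ((abs_add_le _ _).trans (add_le_add_left ?_ _)) (abs_nonneg _)
  rcases lt_trichotomy y 0 with h | h | h
  · simp [Int.sign_eq_neg_one_of_neg h]
  · simp [h]
  · simp [Int.sign_eq_one_of_pos h]

theorem Zf_summable (hk : 2 ≤ k) (hq : 0 < q) (c : ℤ) :
    Summable fun i : ℤ => gs γ k (c + i * q) :=
  (gs_summable hk).comp_injective (i := fun i : ℤ => c + i * q) fun _ _ h =>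
    mul_right_cancel₀ (by omega) (add_left_cancel h)

theorem Zf_per (c m : ℤ) : Zf γ q k (c + m * q) = Zf γ q k c := by
  rw [Zf, Zf, ← (Equiv.addLeft m).tsum_eq fun i => gs γ k (c + i * q)]
  exact tsum_congr fun i => by simp only [Equiv.coe_addLeft]; congr 1; ring

theorem S_summable : Summable fun i : ℤ => 1 / ((i : ℝ) ^ 2 + 1) := by
  refine (Real.summable_one_div_int_pow.2 one_lt_two).of_norm_bounded_eventually ?_
  filter_upwards [Filter.eventually_cofinite_ne 0] with i hi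
  have : (0 : ℝ) < (i : ℝ) ^ 2 := by positivity
  rw [Real.norm_of_nonneg (by positivity)]
  exact one_div_le_one_div_of_le this (by linarith)

theorem X_abs {x : ℤ} (hx : x ∈ Icc (-(q * n) : ℤ) (q * n)) : |(x : ℝ)| ≤ q * n := by
  exact_mod_cast abs_le.2 (mem_Icc.1 hx)

theorem X_abs2 (hX : X ⊆ Icc (-(q * n) : ℤ) (q * n)) (x : ℤ) (hx : x ∈ X) :
    |(x : ℝ)| ≤ 2 * (q * n) := by
  have := X_abs (hX hx)
  have : (0 : ℝ) ≤ q * n := by positivity
  linarith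

theorem pow_fac (a : ℝ) (ha : 0 ≤ a) (m j : ℕ) : (a * m) ^ j / j ! ≤ a ^ j * 3 ^ m := by
  rw [mul_pow, mul_div_assoc]
  refine mul_le_mul_of_nonneg_left ((Real.pow_div_factorial_le_exp _ m.cast_nonneg j).trans ?_)
    (by positivity)
  rw [← mul_one (m : ℝ), Real.exp_nat_mul]
  exact pow_le_pow_left₀ (Real.exp_pos _).le (Real.exp_one_lt_d9.le.trans (by norm_num)) m

theorem mu_W (hq : 0 < q) (hn : 0 < n) (b : Fin q) {s : Finset ℤ}
    (hs : s ⊆ Ico (-(4 * n) : ℤ) (4 * n)) :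
    Mu X (2 * (q * n))
      (fun x => N1 q (8 * n) * wi q (b : ℕ) s x) ((2 ^ 74 * q ^ 16) ^ n) := by
  have h0 : (1 : ℝ) ≤ q * n := by exact_mod_cast Nat.mul_pos hq hn
  have h1 := mu_wi (X := X) (ρ := 2 * (q * n)) (by positivity) q (b : ℕ) s
    (R := 4 * (q * n)) (by linarith) (L := 8 * n)
    ((card_le_card hs).trans (by rw [Int.card_Ico]; omega)) fun i hi => by
      obtain ⟨i1, i2⟩ := mem_Ico.1 (hs hi)
      have b1 : ((b : ℕ) : ℤ) < q := by exact_mod_cast b.2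
      have b2 : -(4 * n) * (q : ℤ) ≤ i * q := mul_le_mul_of_nonneg_right i1 (by omega)
      have b3 : i * q ≤ (4 * n - 1) * (q : ℤ) := mul_le_mul_of_nonneg_right (by omega) (by omega)
      have : |((b : ℕ) : ℤ) + i * q| ≤ 4 * (q * n) := abs_le.2 ⟨by nlinarith, by nlinarith⟩
      exact_mod_cast this
  refine ((mu_const (N1 q (8 * n))).mul h1).mono (by positivity) ?_
  have h2 := pow_fac q q.cast_nonneg (6 * n) (8 * n)
  have h3 : (3 : ℝ) ^ (6 * n) ≤ (2 ^ 10) ^ n := by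
    rw [pow_mul]; exact pow_le_pow_left₀ (by positivity) (by norm_num) n
  calc |N1 q (8 * n)| * (4 * (q * n) + 2 * (q * n) : ℝ) ^ (8 * n)
      = Nat.lcmUpto (8 * n) * q ^ (8 * n) * ((q * (6 * n : ℕ) : ℝ) ^ (8 * n) / (8 * n)!) := by
        rw [abs_of_pos (N1_pos hq _), N1]; push_cast; ring
    _ ≤ 2 ^ (8 * (8 * n)) * q ^ (8 * n) * (q ^ (8 * n) * (2 ^ 10) ^ n) := by
        gcongr
        · exact lcm_le _
        · exact h2.trans (by gcongr)
    _ = _ := by simp only [mul_pow, ← pow_mul]; ring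

theorem mu_A (hk : 0 < k) (hq : 0 < q) {j : ℕ} (hj : j < k * n) :
    Mu X (2 * (q * n))
      (fun x => (j ! : ℝ)⁻¹ * wi 1 0 (Ico 0 j) x) ((9 * q) ^ (k * n)) := by
  have hq1 : (1 : ℝ) ≤ q := by exact_mod_cast hq
  have hk1 : (1 : ℝ) ≤ k := by exact_mod_cast hk
  have h0 : (1 : ℝ) ≤ (k * n : ℕ) := by exact_mod_cast (by omega : 1 ≤ k * n)
  have h1 := mu_wi (X := X) (ρ := 2 * (q * n)) (by positivity) 1 0
    (Ico 0 j) (R := (k * n : ℕ)) (le_add_of_le_of_nonneg h0 (by positivity)) (L := j) (by simp)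
    fun i hi => by
      obtain ⟨i1, i2⟩ := mem_Ico.1 hi
      have : |(0 : ℤ) + i * (1 : ℕ)| ≤ (k * n : ℕ) := abs_le.2 ⟨by omega, by omega⟩
      exact_mod_cast this
  refine ((mu_const _).mul h1).mono (by positivity) ?_
  calc |(j ! : ℝ)⁻¹| * ((k * n : ℕ) + 2 * (q * n) : ℝ) ^ j
      ≤ |(j ! : ℝ)⁻¹| * (3 * q * (k * n : ℕ)) ^ j := by
        gcongr
        push_cast
        nlinarith [mul_le_mul_of_nonneg_right hq1 (by positivity : (0 : ℝ) ≤ k * n),
          mul_le_mul_of_nonneg_right hk1 (by positivity : (0 : ℝ) ≤ q * n)]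
    _ = (3 * q * (k * n : ℕ)) ^ j / j ! := by rw [abs_of_pos (by positivity)]; ring
    _ ≤ (3 * q) ^ (k * n) * 3 ^ (k * n) := (pow_fac _ (by positivity) _ j).trans (by
        gcongr; linarith)
    _ = _ := by rw [← mul_pow]; ring

theorem wi_erase (b : ℤ) {s : Finset ℤ} {i : ℤ} (hi : i ∈ s) (x : ℤ) :
    wi q b s x = (b + i * q - x) * wi q b (s.erase i) x :=
  (mul_prod_erase _ (fun i => b + i * q - x) hi).symm

theorem form_small (hk : 2 ≤ k) (hq : 2 ≤ q) (hn : 0 < n) (hX : X ⊆ Icc (-(q * n) : ℤ) (q * n))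
    (b : Fin q) {z : ℤ → ℝ}
    (hz : ∀ x ∈ X, ¬(q : ℤ) ∣ (b : ℕ) - x ∧ z ((b : ℕ) - x) = Zf γ q k ((b : ℕ) - x))
    {f : ℤ → ℝ} {δ : ℝ} (hδ : 0 ≤ δ) (hf : Mom X (2 * (q * n)) f δ) :
    |∑ x ∈ X, f x * (N1 q (8 * n) ^ k *
      ((wi q (b : ℕ) (Ico (-(4 * n)) (4 * n)) x : ℝ) ^ k * z ((b : ℕ) - x) -
        r0 q k (b : ℕ) (Ico (-(4 * n)) (4 * n)) x))| ≤
      δ * ((2 ^ 74 * q ^ 16) ^ n) ^ k * (1 + |γ|) * (16 * n ^ 2 + 8) *
        ∑' i : ℤ, 1 / ((i : ℝ) ^ 2 + 1) := by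
  classical
  set I := Ico (-(4 * n) : ℤ) (4 * n)
  set N := N1 q (8 * n)
  set B : ℝ := ((2 ^ 74 * q ^ 16) ^ n) ^ k
  have hB : 0 ≤ B := by positivity
  have b1 : ((b : ℕ) : ℤ) < q := by exact_mod_cast b.2
  have hq0 : 0 < q := by omega
  have h1 : HasSum (fun i : ℤ => ∑ x ∈ X, f x * (N ^ k *
      ((wi q (b : ℕ) I x : ℝ) ^ k * gs γ k ((b : ℕ) - x + i * q) - if i ∈ I then
        (((1 + (((b : ℕ) : ℤ) + i * q - x).sign) * wi q (b : ℕ) (I.erase i) x ^ k : ℤ) : ℝ)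
        else 0))) (∑ x ∈ X, f x * (N ^ k *
      ((wi q (b : ℕ) I x : ℝ) ^ k * z ((b : ℕ) - x) - r0 q k (b : ℕ) I x))) := by
    refine hasSum_sum fun x hx => HasSum.mul_left _ (HasSum.mul_left _ (HasSum.sub ?_ ?_))
    · rw [(hz x hx).2]
      exact (Zf_summable hk hq0 _).hasSum.mul_left _
    · rw [r0, Int.cast_sum, ← sum_congr rfl fun i hi => if_pos (c := i ∈ I) hi]
      exact hasSum_sum_of_ne_finset_zero fun i hi => if_neg hi
  rw [← h1.tsum_eq, ← Real.norm_eq_abs]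
  refine tsum_of_norm_bounded (S_summable.hasSum.mul_left _) fun i => ?_
  rw [Real.norm_eq_abs]
  have hi2 : (0 : ℝ) < (i : ℝ) ^ 2 + 1 := by positivity
  by_cases hi : i ∈ I
  · have h2 := (((mu_W hq0 hn b (erase_subset i I)).pow k).mul (mu_const (γ - 1))).sum_le hδ hf
    refine le_trans (le_of_eq (congrArg _ (sum_congr rfl fun x hx => ?_))) (h2.trans ?_)
    · rw [if_pos hi, wi_erase _ hi, gs, show ((b : ℕ) : ℤ) - x + i * q = (b : ℕ) + i * q - x by ring]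
      have : ((((b : ℕ) : ℤ) + i * q - x : ℤ) : ℝ) ≠ 0 := Int.cast_ne_zero.2 fun h =>
        (hz x hx).1 ⟨-i, by linarith⟩
      generalize ((b : ℕ) : ℤ) + i * q - x = y at this ⊢
      simp only [N]
      push_cast
      rw [mul_pow, mul_pow]
      field_simp
      ring
    · obtain ⟨i1, i2⟩ := mem_Ico.1 hi
      have h3 : i ^ 2 ≤ 16 * n ^ 2 := by nlinarith
      have h4 : (i : ℝ) ^ 2 ≤ 16 * n ^ 2 := by exact_mod_cast h3
      have h5 : |γ - 1| ≤ 1 + |γ| := (abs_sub _ _).trans_eq (by rw [abs_one, add_comm])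
      rw [← mul_assoc, mul_assoc (δ * B * _), mul_one_div]
      exact le_trans (by gcongr)
        (le_mul_of_one_le_right (by positivity) ((one_le_div hi2).2 (by linarith)))
  · obtain ⟨σ, s1, s2, s3⟩ : ∃ σ : ℤ, |(σ : ℝ)| = 1 ∧
        (∀ x ∈ X, (((b : ℕ) : ℤ) + i * q - x).sign = σ) ∧
        |i| + 2 * (2 * (q * n)) ≤ 2 * |((b : ℕ) : ℤ) + i * q| ∧ 4 ≤ |i| := by
      rw [mem_Ico, not_and_or, not_le, not_lt] at hi
      rcases hi with h | h
      · have h3 : i * q ≤ (-(4 * n) - 1) * (q : ℤ) := mul_le_mul_of_nonneg_right (by omega) (by omega)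
        refine ⟨-1, by simp, fun x hx => Int.sign_eq_neg_one_of_neg ?_, ?_, ?_⟩
        · have := (mem_Icc.1 (hX hx)).1; nlinarith
        · rw [abs_of_neg (by omega), abs_of_neg (by nlinarith)]; nlinarith
        · rw [abs_of_neg (by omega)]; omega
      · have h3 : (4 * n) * (q : ℤ) ≤ i * q := mul_le_mul_of_nonneg_right h (by omega)
        refine ⟨1, by simp, fun x hx => Int.sign_eq_one_of_pos ?_, ?_, ?_⟩
        · have := (mem_Icc.1 (hX hx)).2; nlinarith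
        · rw [abs_of_pos (by omega), abs_of_pos (by nlinarith)]; nlinarith
        · rw [abs_of_pos (by omega)]; omega
    set y : ℝ := ((((b : ℕ) : ℤ) + i * q : ℤ) : ℝ) with hy
    have h3 : |(i : ℝ)| + 2 * (2 * (q * n)) ≤ 2 * |y| := by rw [hy]; exact_mod_cast s3.1
    have h4 : 4 ≤ |(i : ℝ)| := by exact_mod_cast s3.2
    have h2 := ((((mu_W hq0 hn b (subset_refl I)).pow k).mul ((mu_inv (by positivity) (X_abs2 hX)
      (y := y) (by linarith)).pow k)).mul (mu_const (σ + γ))).sum_le hδ hf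
    refine le_trans (le_of_eq (congrArg _ (sum_congr rfl fun x hx => ?_))) (h2.trans ?_)
    · rw [if_neg hi, gs, show ((b : ℕ) : ℤ) - x + i * q = (b : ℕ) + i * q - x by ring, s2 x hx,
        Int.cast_sub, ← hy, mul_pow, inv_pow]
      ring
    · have h5 : 1 ≤ |y| - 2 * (q * n) := by linarith
      rw [mul_right_comm, ← mul_assoc, ← mul_assoc, mul_assoc (δ * B * _), mul_one_div]
      refine mul_le_mul (mul_le_mul_of_nonneg_left ((abs_add_le _ _).trans_eq (by rw [s1]))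
        (by positivity)) ?_ (by positivity) (by positivity)
      refine (pow_le_pow_of_le_one (by positivity) (inv_le_one_of_one_le₀ h5) hk).trans ?_
      rw [inv_pow, ← one_div, div_le_div_iff₀ (by positivity) hi2, ← sq_abs (i : ℝ)]
      have h6 : |(i : ℝ)| ^ 2 ≤ (2 * (|y| - 2 * (q * n))) ^ 2 :=
        pow_le_pow_left₀ (abs_nonneg _) (by linarith) 2
      nlinarith [sq_nonneg (n : ℝ), mul_nonneg (sq_nonneg (n : ℝ)) (sq_nonneg (|y| - 2 * (q * n)))]

def th (q : ℕ) (z : ℤ → ℝ) : Option (Fin q) → ℝ := fun o => o.elim 1 fun c => z (c : ℕ)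

theorem hg_sum (hq : 0 < q) {z : ℤ → ℝ} (hz : ∀ c m : ℤ, z (c + m * q) = z c)
    (X : Finset ℤ) (b : ℤ) (U V : ℤ → ℤ) {T : ℝ}
    (hU : ∀ x ∈ X, |(U x : ℝ)| ≤ T) (hV : ∀ x ∈ X, |(V x : ℝ)| ≤ T) (hT : 0 ≤ T) :
    ∃ l : Option (Fin q) → ℤ, (∀ i, (|l i| : ℝ) ≤ X.card * T) ∧
      ∑ x ∈ X, (U x * z (b - x) - V x) = ∑ i, l i * th q z i := by
  classical
  have hq' : (0 : ℤ) < q := by omega
  let r : ℤ → Fin q := fun x => ⟨((b - x) % q).toNat, by
    have := Int.emod_lt_of_pos (b - x) hq'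
    have := Int.emod_nonneg (b - x) hq'.ne'
    omega⟩
  have hr : ∀ x, z (b - x) = z (r x : ℕ) := fun x => by
    rw [← hz ((r x : ℕ) : ℤ) ((b - x) / q)]
    simp only [r, Int.toNat_of_nonneg (Int.emod_nonneg (b - x) hq'.ne')]
    rw [Int.emod_add_ediv_mul]
  refine ⟨fun o => o.elim (-∑ x ∈ X, V x) fun c => ∑ x ∈ X with r x = c, U x, ?_, ?_⟩
  · rintro (_ | c)
    · simp only [Option.elim, Int.cast_neg, abs_neg, Int.cast_sum]
      exact (abs_sum_le_sum_abs _ _).trans ((sum_le_card_nsmul _ _ _ hV).trans_eq (by simp))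
    · simp only [Option.elim, Int.cast_sum]
      refine (abs_sum_le_sum_abs _ _).trans ((sum_le_card_nsmul _ _ _ fun x hx =>
        hU x (mem_filter.1 hx).1).trans ?_)
      rw [nsmul_eq_mul]
      gcongr
      exact filter_subset _ _
  · simp only [Fintype.sum_option, th, Option.elim, Int.cast_neg, Int.cast_sum, mul_one,
      sum_sub_distrib, sum_mul, hr]
    rw [← sum_fiberwise X r, neg_add_eq_sub]
    congr 1
    exact sum_congr rfl fun c _ => sum_congr rfl fun x hx => by rw [(mem_filter.1 hx).2]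

theorem form_hg (hk : 0 < k) (hq : 0 < q) (hX : X ⊆ Icc (-(q * n) : ℤ) (q * n)) {z : ℤ → ℝ}
    (hz : ∀ c m : ℤ, z (c + m * q) = z c) (b : Fin q) {j : ℕ} (hj : j < k * n) (c : ℤ → ℤ) {H : ℝ}
    (hc : ∀ x, |(c x : ℝ)| ≤ H) : ∃ l : Option (Fin q) → ℤ,
      (∀ i, (|l i| : ℝ) ≤ X.card *
        (16 * n * (H * (9 * q) ^ (k * n) * ((2 ^ 74 * q ^ 16) ^ n) ^ k))) ∧
      ∑ x ∈ X, c x * ((j ! : ℝ)⁻¹ * wi 1 0 (Ico 0 j) x) *
        (N1 q (8 * n) ^ k * ((wi q (b : ℕ) (Ico (-(4 * n)) (4 * n)) x : ℝ) ^ k *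
          z ((b : ℕ) - x) - r0 q k (b : ℕ) (Ico (-(4 * n)) (4 * n)) x)) =
        ∑ i, l i * th q z i := by
  classical
  have hn : 0 < n := Nat.pos_of_mul_pos_left (by omega : 0 < k * n)
  have hn1 : (1 : ℝ) ≤ n := by exact_mod_cast hn
  have hH : 0 ≤ H := (abs_nonneg _).trans (hc 0)
  set I := Ico (-(4 * n) : ℤ) (4 * n) with hI
  have e : I = Ico (-(4 * n) : ℤ) (-(4 * n) + (8 * n : ℕ)) := by rw [hI]; congr 1; push_cast; ring
  have h1 : ∀ x i, ∃ z : ℤ, i ∈ I → (z : ℝ) = N1 q (8 * n) * wi q (b : ℕ) (I.erase i) x :=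
    fun x i => by
      by_cases hi : i ∈ I
      · rw [e] at hi ⊢
        exact (int_erase q _ _ _ x hi).imp fun _ h _ => h
      · exact ⟨0, fun h => absurd h hi⟩
  choose w hw using h1
  have h2 : ∀ x, ∃ z : ℤ, (z : ℝ) = (j ! : ℝ)⁻¹ * wi 1 0 (Ico 0 j) x := fun x => by
    obtain ⟨z, hz⟩ := wi_Ico 1 0 0 j x
    refine ⟨z, ?_⟩
    simp only [Nat.cast_one, one_pow, one_mul, zero_add] at hz
    rw [hz]; push_cast; field_simp
  choose a ha using h2
  have h0 : (0 : ℤ) ∈ I := mem_Ico.2 ⟨by omega, by omega⟩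
  have h3 : ∀ x, ((((b : ℕ) - x) * w x 0 : ℤ) : ℝ) = N1 q (8 * n) * wi q (b : ℕ) I x := fun x => by
    rw [wi_erase _ h0, Int.cast_mul, hw x 0 h0]; push_cast; ring
  have h4 : ∀ x ∈ X, |(c x : ℝ) * a x| ≤ H * (9 * q) ^ (k * n) := fun x hx => by
    rw [abs_mul, ha]
    exact mul_le_mul (hc x) ((mu_A hk hq hj).abs_le (X_abs2 hX) hx) (abs_nonneg _) hH
  obtain ⟨l, l1, l2⟩ := hg_sum hq hz X (b : ℕ)
    (fun x => c x * a x * (((b : ℕ) - x) * w x 0) ^ k)
    (fun x => c x * a x * ∑ i ∈ I, (1 + (((b : ℕ) : ℤ) + i * q - x).sign) * w x i ^ k)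
    (T := 16 * n * (H * (9 * q) ^ (k * n) * ((2 ^ 74 * q ^ 16) ^ n) ^ k)) (fun x hx => by
      rw [Int.cast_mul, Int.cast_mul, Int.cast_pow, h3, abs_mul]
      refine (mul_le_mul (h4 x hx) (((mu_W hq hn b (subset_refl I)).pow k).abs_le (X_abs2 hX) hx)
        (abs_nonneg _) (by positivity)).trans (le_mul_of_one_le_left (by positivity) (by linarith)))
    (fun x hx => by
      rw [Int.cast_mul, Int.cast_mul, abs_mul, Int.cast_sum]
      refine (mul_le_mul (h4 x hx) ((abs_sum_le_sum_abs _ _).trans (sum_le_card_nsmul _ _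
        (2 * ((2 ^ 74 * q ^ 16) ^ n) ^ k : ℝ) fun i hi => ?_)) (abs_nonneg _)
        (by positivity)).trans_eq ?_
      · rw [Int.cast_mul, Int.cast_pow, hw x i hi, abs_mul]
        refine mul_le_mul ?_ (((mu_W hq hn b (erase_subset i I)).pow k).abs_le (X_abs2 hX) hx)
          (abs_nonneg _) zero_le_two
        rcases lt_trichotomy (((b : ℕ) : ℤ) + i * q - x) 0 with h | h | h
        · simp [Int.sign_eq_neg_one_of_neg h]
        · simp [h]
        · rw [Int.sign_eq_one_of_pos h]; norm_num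
      · rw [e, Int.card_Ico, add_sub_cancel_left, Int.toNat_natCast, nsmul_eq_mul]
        push_cast; ring) (by positivity)
  refine ⟨l, l1, Eq.trans (sum_congr rfl fun x _ => ?_) l2⟩
  rw [Int.cast_mul, Int.cast_mul, Int.cast_pow, h3, Int.cast_mul, Int.cast_mul, ha, Int.cast_sum,
    r0, Int.cast_sum, mul_sub, mul_sub, mul_pow, mul_sum]
  congr 1
  · ring
  · refine congrArg _ (sum_congr rfl fun i hi => ?_)
    rw [Int.cast_mul, Int.cast_mul, Int.cast_pow, Int.cast_pow, hw x i hi]; ring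

end Pool.Agent.Lib.MP_12eca1_ag.CM
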