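import Pool.Agent.Lib.MP_12eca1_ag.C.Form

/-! The box principle and the main inequality. -/

namespace Pool.Agent.Lib.MP_12eca1_ag.CM

open Finset Polynomial
open scoped Nat

variable {q k n N S : ℕ} {γ : ℝ}

noncomputable def XX (q n : ℕ) (π : Fin N → Fin q) : Finset ℤ :=
  (univ ×ˢ Ico (-(n : ℤ)) n).image fun u : Fin N × ℤ => (π u.1 : ℕ) + u.2 * q

theorem mem_XX {π : Fin N → Fin q} {x : ℤ} :
    x ∈ XX q n π ↔ ∃ (p : Fin N) (t : ℤ), -(n : ℤ) ≤ t ∧ t < n ∧ x = (π p : ℕ) + t * q := by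
  simp only [XX, mem_image, mem_product, mem_univ, true_and, mem_Ico, Prod.exists, and_assoc,
    eq_comm]

theorem XX_sub (π : Fin N → Fin q) : XX q n π ⊆ Icc (-(q * n) : ℤ) (q * n) := fun x hx => by
  obtain ⟨p, t, t1, t2, rfl⟩ := mem_XX.1 hx
  have : ((π p : ℕ) : ℤ) < q := by exact_mod_cast (π p).2
  exact mem_Icc.2 ⟨by nlinarith, by nlinarith⟩

theorem li_tests {n' J : ℕ} (hk : 0 < k) (hnn : n ≤ n') (hqn : S ≤ n)
    (hn : S * (J + k * S) + (J + k * (8 * n')) + N * S < N * (2 * n))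
    {β : Fin S → Fin q} {π : Fin N → Fin q} (hβ : Function.Injective β)
    (hπ : Function.Injective π) (z : ℤ → ℚ) (hz : ∀ c m : ℤ, z (c + m * q) = z c) :
    LinearIndependent ℚ fun (u : Fin S × Fin J) (x : XX q n π) =>
      (wi 1 0 (Ico 0 (u.2 : ℕ)) x : ℚ) *
        ((wi q (β u.1 : ℕ) (Ico (-(4 * n')) (4 * n')) x : ℚ) ^ k * z ((β u.1 : ℕ) - x) -
          r0 q k (β u.1 : ℕ) (Ico (-(4 * n')) (4 * n')) x) := by
  classical
  refine Fintype.linearIndependent_iff.2 fun g hg => ?_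
  have h1 := zero_est hk hnn hqn hn hβ hπ z hz
    (fun b => ∑ j : Fin J, g (b, j) • Wp 1 0 (Ico 0 (j : ℕ)))
    (fun b => natDegree_sum_le_of_forall_le _ _ fun j _ => (natDegree_smul_le _ _).trans
      ((Wp_deg _).trans (by simp))) fun p t x t1 t2 hx => by
      have := congrFun hg ⟨x, mem_XX.2 ⟨p, t, t1, t2, hx⟩⟩
      simp only [Finset.sum_apply, Pi.smul_apply, smul_eq_mul, Fintype.sum_prod_type,
        Pi.zero_apply] at this
      simp only [eval_finsetSum, eval_smul, Wp_eval, sum_mul, smul_eq_mul, mul_assoc]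
      exact this
  rintro ⟨b, j⟩
  induction j using WellFoundedLT.induction with
  | ind j ih =>
  have h2 := congrArg (eval (((j : ℕ) : ℤ) : ℚ)) (h1 b)
  simp only [eval_finsetSum, eval_smul, Wp_eval, smul_eq_mul, eval_zero] at h2
  rw [sum_eq_single j (fun i _ hi => ?_) (by simp)] at h2
  · refine (mul_eq_zero.1 h2).resolve_right (Int.cast_ne_zero.2 (prod_ne_zero_iff.2 fun i hi => ?_))
    have := (mem_Ico.1 hi).2
    omega
  · rcases lt_or_gt_of_ne hi with h | h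
    · rw [ih i h, zero_mul]
    · have h3 : (j : ℕ) < i := h
      rw [wi, prod_eq_zero (i := ((j : ℕ) : ℤ)) (mem_Ico.2 ⟨by omega, by omega⟩) (by simp)]
      simp

theorem boxes (X : Finset ℤ) {M : ℝ} (hM : 0 < M) (hX : ∀ x ∈ X, |(x : ℝ)| ≤ M) (hX0 : X.Nonempty)
    {H T : ℕ} (hH : 0 < H) (hT : 2 ≤ T) (Ω : ℕ) {κ : Type} [Fintype κ] (B : κ → X → ℚ)
    (hB : LinearIndependent ℚ B) (h : ∀ c : ℤ → ℤ, (∀ x, |(c x : ℝ)| ≤ H) →
      Mom X (T * M) (fun x => c x) (X.card * H / T ^ Ω) → ∀ t, ∑ x : X, B t x * c x = 0) :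
    (H + 1) ^ Fintype.card κ ≤ T ^ ((Ω + 2) * Ω) := by
  classical
  have hc : (0 : ℝ) < X.card := by exact_mod_cast hX0.card_pos
  have hH' : (0 : ℝ) < H := by exact_mod_cast hH
  have hT' : (2 : ℝ) ≤ T := by exact_mod_cast hT
  set δ : ℝ := X.card * H / T ^ Ω with hδ
  have hδ0 : 0 < δ := by positivity
  let ex : (X → Fin (H + 1)) → ℤ → ℤ := fun J x => if hx : x ∈ X then (J ⟨x, hx⟩ : ℕ) else 0
  have hex : ∀ J x, 0 ≤ ex J x ∧ ex J x ≤ H := fun J x => by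
    simp only [ex]
    split_ifs with hx
    · have := (J ⟨x, hx⟩).2; omega
    · omega
  have hb : ∀ c : ℤ → ℤ, (∀ x, |(c x : ℝ)| ≤ H) → ∀ e : ℕ,
      |∑ x ∈ X, (c x : ℝ) * (x : ℝ) ^ e| ≤ X.card * (H * M ^ e) := fun c hc e =>
    (abs_sum_le_sum_abs _ _).trans ((sum_le_card_nsmul _ _ _ fun x hx => by
      rw [abs_mul, abs_pow]
      exact mul_le_mul (hc x) (pow_le_pow_left₀ (abs_nonneg _) (hX x hx) e) (by positivity)
        hH'.le).trans_eq (nsmul_eq_mul _ _))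
  refine (count' B hB H (fun J (e : Fin Ω) =>
    ⌊(∑ x ∈ X, (ex J x : ℝ) * (x : ℝ) ^ (e : ℕ)) / (δ * (T * M) ^ (e : ℕ))⌋)
    (Fintype.piFinset fun _ => Icc (-(T : ℤ) ^ Ω) (T ^ Ω)) (fun J => Fintype.mem_piFinset.2 fun e => ?_)
    fun J J' hJ t => ?_).trans ?_
  · have h1 := hb (ex J) (fun x => by exact_mod_cast abs_le.2 ⟨by have := hex J x; omega,
      (hex J x).2⟩) e
    have h2 : |(∑ x ∈ X, (ex J x : ℝ) * (x : ℝ) ^ (e : ℕ)) / (δ * (T * M) ^ (e : ℕ))| ≤ T ^ Ω := by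
      rw [abs_div, abs_of_pos (a := δ * _) (by positivity), div_le_iff₀ (by positivity)]
      refine h1.trans ?_
      rw [hδ, ← mul_assoc, ← mul_assoc, mul_div_cancel₀ _ (by positivity)]
      gcongr; nlinarith
    obtain ⟨h3, h4⟩ := abs_le.1 h2
    exact mem_Icc.2 ⟨Int.le_floor.2 (by exact_mod_cast h3),
      by exact_mod_cast (Int.floor_le _).trans h4⟩
  · have hc' : ∀ x, |((ex J x - ex J' x : ℤ) : ℝ)| ≤ H := fun x => by
      have := hex J x
      have := hex J' x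
      exact_mod_cast abs_le.2 ⟨by omega, by omega⟩
    have h1 := h (fun x => ex J x - ex J' x) hc' (fun e => ?_) t
    · simpa [ex] using h1
    by_cases he : e < Ω
    · have h2 := Int.abs_sub_lt_one_of_floor_eq_floor (congrFun hJ ⟨e, he⟩)
      rw [← sub_div, abs_div, abs_of_pos (a := δ * _) (by positivity), div_lt_one (by positivity),
        ← sum_sub_distrib] at h2
      simpa only [Int.cast_sub, sub_mul] using h2.le
    · refine (hb _ hc' e).trans ?_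
      rw [hδ, mul_pow, div_mul_eq_mul_div, le_div_iff₀ (by positivity)]
      have : (T : ℝ) ^ Ω ≤ T ^ e := pow_le_pow_right₀ (by linarith) (by omega)
      calc _ ≤ X.card * (H * M ^ e) * (T : ℝ) ^ e := by gcongr
        _ = _ := by ring
  · rw [Fintype.card_piFinset, prod_const, card_univ, Fintype.card_fin, pow_mul, Int.card_Icc]
    refine Nat.pow_le_pow_left (Int.toNat_le.2 ?_) _
    have h1 : (1 : ℤ) ≤ T ^ Ω := one_le_pow₀ (by omega)
    have h2 : (2 : ℤ) ^ 2 ≤ T ^ 2 := pow_le_pow_left₀ zero_le_two (by omega) 2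
    push_cast
    rw [pow_add]; nlinarith

theorem main_ineq (hk : 2 ≤ k) (hq : 2 ≤ q) {t : ℕ} (ht : 0 < t) (hN : (S + 9) * (k * t) < 2 * N)
    {τ : Fin S → Fin q} {π : Fin N → Fin q}
    (hτ : Function.Injective τ) (hπ : Function.Injective π) {z : ℤ → ℝ}
    (hz : ∀ c m : ℤ, z (c + m * q) = z c) (hz' : ∀ b p, τ b ≠ π p ∧
      z ((τ b : ℕ) - (π p : ℕ)) = Zf γ q k ((τ b : ℕ) - (π p : ℕ))) {d ω h β : ℕ}
    (hd : Module.finrank ℚ (Submodule.span ℚ (Set.range (th q z))) ≤ d)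
    (hβ : (9 * q * (2 ^ 74 * q ^ 16) : ℝ) ^ (k * t) ≤ (2 * t : ℕ) ^ β)
    (hh : ω ^ 2 + 1 ≤ h * (S * (k * t))) : ω ≤ (d + 1) * (h + β) := by
  classical
  by_contra hω
  obtain ⟨c, hc, hS⟩ := siegelR (th q z) d hd ⟨none, rfl⟩
  set Z := ∑' i : ℤ, 1 / ((i : ℝ) ^ 2 + 1)
  have hS0 : 0 ≤ Z := tsum_nonneg fun i => by positivity
  obtain ⟨T, hT⟩ : ∃ T, T = 2 * t := ⟨_, rfl⟩
  rw [← hT] at hβ
  have hT1 : (1 : ℝ) < T := by exact_mod_cast (by omega : 1 < T)
  obtain ⟨n, ⟨hn1, hn2⟩, hn3⟩ : ∃ n : ℕ, (S * (k * S) + N * S + S < n ∧ 2 * ω < n) ∧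
      c * ((1 + |γ|) * Z) * (100 * q * t ^ 3) ^ (d + 1) *
        ((n : ℝ) ^ (3 * (d + 1)) / T ^ n) < 1 := by
    have h1 := (tendsto_pow_const_div_const_pow_of_one_lt (3 * (d + 1)) hT1).const_mul
      (c * ((1 + |γ|) * Z) * (100 * q * t ^ 3) ^ (d + 1))
    rw [mul_zero] at h1
    exact (((Filter.eventually_gt_atTop _).and (Filter.eventually_gt_atTop _)).and
      (h1.eventually (gt_mem_nhds one_pos))).exists
  have hq0 : 0 < q := by omega
  have hn0 : 0 < n := by omega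
  obtain ⟨m, hm⟩ : ∃ m, m = t * n := ⟨_, rfl⟩
  have hnm : n ≤ m := hm ▸ Nat.le_mul_of_pos_left n ht
  have eρ : (T : ℝ) * (q * n) = 2 * (q * m) := by rw [hT, hm]; push_cast; ring
  have hh0 : 0 < h := Nat.pos_of_ne_zero fun e => by simp [e] at hh
  have hq1 : (1 : ℝ) ≤ q := by exact_mod_cast hq0
  have hn4 : (1 : ℝ) ≤ m := by exact_mod_cast hn0.trans_le hnm
  obtain ⟨H, hH⟩ : ∃ H, T ^ (h * n) = H + 1 := Nat.exists_eq_add_one.2 (pow_pos (by omega) _)
  have hH0 : 0 < H := by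
    have := Nat.one_lt_pow (n := h * n) (a := T) (by positivity) (by omega); omega
  have hH1 : (H : ℝ) ≤ T ^ (h * n) := by exact_mod_cast (by omega : H ≤ T ^ (h * n))
  set X := XX q n π with hX
  set I := Ico (-(4 * m) : ℤ) (4 * m) with hI
  have hXm : X ⊆ Icc (-(q * m) : ℤ) (q * m) := (XX_sub π).trans (by gcongr)
  have hXc : (X.card : ℝ) ≤ 3 * (q * m) := by
    have : 0 < q * m := Nat.mul_pos hq0 (by omega)
    have h2 : X.card ≤ 3 * (q * m) := (card_le_card hXm).trans (by rw [Int.card_Icc]; omega)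
    exact_mod_cast h2
  let L : (ℤ → ℤ) → Fin S → ℕ → ℝ := fun a b j => ∑ x ∈ X,
    a x * ((j ! : ℝ)⁻¹ * wi 1 0 (Ico 0 j) x) * (N1 q (8 * m) ^ k *
      ((wi q (τ b : ℕ) I x : ℝ) ^ k * z ((τ b : ℕ) - x) - r0 q k (τ b : ℕ) I x))
  let F : Set ℝ := {f | ∃ a : ℤ → ℤ, (∀ x, |(a x : ℝ)| ≤ H) ∧
    Mom X (2 * (q * m)) (fun x => a x) (X.card * H / T ^ (ω * n)) ∧
      ∃ b, ∃ j < k * m, f = L a b j}
  have h1 : (1 : ℝ) ∈ Submodule.span ℚ F := by
    by_contra h2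
    obtain ⟨ψ, ψ1, ψ2⟩ := Submodule.exists_dual_map_eq_bot_of_notMem h2 inferInstance
    have h3 := boxes X (M := q * n) (by positivity) (fun x hx => X_abs (XX_sub π hx))
      ⟨_, mem_XX.2 ⟨⟨0, by omega⟩, 0, by omega, by omega, rfl⟩⟩ hH0 (T := T) (by omega) (ω * n) _
      (li_tests (k := k) (n' := m) (J := k * m) (by omega) hnm (by omega)
        (by have := Nat.mul_le_mul_right n hN; rw [hm]; nlinarith) hτ hπ
        (fun t => ψ (z t) / ψ 1) fun t m => by rw [hz])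
      fun a a1 a2 u => by
        have h4 : ψ (L a u.1 u.2) = 0 := (Submodule.eq_bot_iff _).1 ψ2 _
          ⟨_, Submodule.subset_span ⟨a, a1, eρ ▸ a2, u.1, u.2, u.2.2, rfl⟩, rfl⟩
        set ν : ℚ := ((u.2 : ℕ)! : ℚ)⁻¹ * (Nat.lcmUpto (8 * m) * q ^ (8 * m) / (8 * m)!) ^ k
        have hν : ν ≠ 0 := by
          have := Nat.lcmUpto_pos (8 * m)
          positivity
        have h5 : L a u.1 u.2 = ν • ∑ x ∈ X, (a x * wi 1 0 (Ico 0 (u.2 : ℕ)) x : ℚ) •
            (((wi q (τ u.1 : ℕ) I x : ℚ) ^ k) • z ((τ u.1 : ℕ) - x) -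
              (r0 q k (τ u.1 : ℕ) I x : ℚ) • (1 : ℝ)) := by
          simp only [L, ν, N1, smul_sum, Rat.smul_def]
          refine sum_congr rfl fun x _ => ?_
          push_cast; ring
        rw [h5, map_smul, smul_eq_zero, map_sum, ← sum_coe_sort] at h4
        refine mul_right_cancel₀ ψ1 (Eq.trans ?_ ((h4.resolve_left hν).trans (zero_mul _).symm))
        rw [sum_mul]
        refine sum_congr rfl fun x _ => ?_
        simp only [map_smul, map_sub, smul_eq_mul, ← hI]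
        field_simp
    rw [← hH, ← pow_mul, Nat.pow_le_pow_iff_right (by omega)] at h3
    simp only [Fintype.card_prod, Fintype.card_fin, hm] at h3
    have h4 := Nat.mul_le_mul_right (n * n) hh
    have h5 := Nat.mul_lt_mul_of_pos_right hn2 hn0
    nlinarith
  set G : ℝ := T ^ ((h + β) * n) with hG
  have hG1 : H * (9 * q) ^ (k * m) * ((2 ^ 74 * q ^ 16 : ℝ) ^ m) ^ k ≤ G := by
    rw [hG, add_mul, pow_add, mul_assoc, ← pow_mul, mul_comm m, ← mul_pow, hm, ← mul_assoc k,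
      pow_mul _ (k * t), pow_mul _ β]
    gcongr
  have hG2 : 1 ≤ G := one_le_pow₀ hT1.le
  have hE : (1 : ℝ) ≤ 100 * q * m ^ 3 := by
    have := one_le_pow₀ (n := 3) hn4
    nlinarith
  have h2 := hS (100 * q * m ^ 3 * G) (100 * q * m ^ 3 * G * ((1 + |γ|) * Z) / T ^ (ω * n))
    (one_le_mul_of_one_le_of_one_le hE hG2) (by positivity) F ?_ h1
  · rw [← mul_div_assoc, one_le_div (by positivity)] at h2
    have h3 : (T : ℝ) ^ n * G ^ (d + 1) ≤ T ^ (ω * n) := by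
      rw [hG, ← pow_mul, ← pow_add]
      refine pow_le_pow_right₀ hT1.le ?_
      have := Nat.mul_le_mul_right n (not_le.1 hω)
      nlinarith
    rw [← mul_div_assoc, div_lt_one (by positivity)] at hn3
    have h4 := mul_lt_mul_of_pos_right hn3 (show 0 < G ^ (d + 1) by positivity)
    refine absurd (h4.trans_le (h3.trans h2)) (not_lt.2 (le_of_eq ?_))
    simp only [hm, Nat.cast_mul, mul_pow, pow_mul]; ring
  · rintro _ ⟨a, a1, a2, b, j, hj, rfl⟩
    obtain ⟨l, l1, l2⟩ := form_hg (k := k) (by omega) hq0 hXm hz (τ b) hj a a1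
    refine ⟨(form_small (γ := γ) hk hq (by omega) hXm (τ b) (fun x hx => by
      obtain ⟨p, s, -, -, rfl⟩ := mem_XX.1 hx
      rw [show ((τ b : ℕ) : ℤ) - ((π p : ℕ) + s * q) = (τ b : ℕ) - (π p : ℕ) + -s * q by ring, hz,
        Zf_per]
      exact ⟨fun ⟨u, hu⟩ => (hz' b p).1 (cls_inj _ _ (s := -s) (t := u) (by linarith)).1,
        (hz' b p).2⟩) (by positivity)
      ((mu_A (by omega) hq0 hj).2 _ _ (by positivity) a2)).trans ?_, l,
      fun i => (l1 i).trans ?_, l2⟩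
    · calc _ = X.card * (16 * m ^ 2 + 8) * (H * (9 * q) ^ (k * m) *
            ((2 ^ 74 * q ^ 16 : ℝ) ^ m) ^ k) * ((1 + |γ|) * Z) / T ^ (ω * n) := by ring
        _ ≤ 3 * (q * m) * (16 * m ^ 2 + 8 * m ^ 2) * G * ((1 + |γ|) * Z) / T ^ (ω * n) := by
            gcongr; nlinarith
        _ = 72 * q * m ^ 3 * G * ((1 + |γ|) * Z) / T ^ (ω * n) := by ring
        _ ≤ _ := by gcongr; norm_num
    · calc _ ≤ 3 * (q * m) * (16 * m * G) := by gcongr
        _ = 48 * q * m ^ 2 * G := by ring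
        _ ≤ _ := by gcongr <;> norm_num [hn4]

theorem no_diff (hk : 2 ≤ k) (hq : 2 ≤ q) (V : Submodule ℚ ℝ) [FiniteDimensional ℚ V] {D t β : ℕ}
    (hD : Module.finrank ℚ V ≤ D) (ht : 0 < t) (hN : (S + 9) * (k * t) < 2 * N)
    (hβ : (9 * q * (2 ^ 74 * q ^ 16) : ℝ) ^ (k * t) ≤ (2 * t : ℕ) ^ β) (hβ2 : 2 ≤ β)
    (hS : 25 * (1 + D) ^ 2 * β ≤ S * (k * t)) {τ : Fin S → Fin q} {π : Fin N → Fin q}
    (hτ : Function.Injective τ) (hπ : Function.Injective π)
    (h : ∀ b p, τ b ≠ π p ∧ Zf γ q k ((τ b : ℕ) - (π p : ℕ)) ∈ V) : False := by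
  classical
  let z : ℤ → ℝ := fun c => if Zf γ q k c ∈ V then Zf γ q k c else 0
  have h2 : Module.finrank ℚ (Submodule.span ℚ (Set.range (th q z))) ≤ 1 + D := by
    refine le_trans (Submodule.finrank_mono (t := Submodule.span ℚ {(1 : ℝ)} ⊔ V)
      (Submodule.span_le.2 ?_)) ((Submodule.finrank_add_le_finrank_add_finrank _ _).trans
      (by rw [finrank_span_singleton one_ne_zero]; omega))
    rintro _ ⟨_ | c, rfl⟩
    · exact Submodule.mem_sup_left (Submodule.subset_span rfl)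
    · refine Submodule.mem_sup_right ?_
      simp only [th, Option.elim, z]
      split_ifs with h
      · exact h
      · exact zero_mem _
  have h3 := Nat.mul_le_mul_left β hS
  have h4 := main_ineq (γ := γ) hk hq ht hN hτ hπ (z := z) (fun c m => by simp only [z, Zf_per])
    (fun b p => (h b p).imp_right fun h => if_pos h)
    (ω := (1 + D + 1) * (β + β) + 1) (h := β) h2 hβ (by
      have h5 : 2 * ((1 + D + 1) * (β + β) + 1) + 2 ≤ 2 * (5 * (1 + D) * β) := by nlinarith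
      have h6 := Nat.pow_le_pow_left
        (show (1 + D + 1) * (β + β) + 1 + 1 ≤ 5 * (1 + D) * β by omega) 2
      nlinarith)
  omega

end Pool.Agent.Lib.MP_12eca1_ag.CM
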