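import Mathlib

/-! Difference operators killing polynomials, and a `p`-adic independence lemma. -/

namespace Pool.Agent.Lib.MP_12eca1_ag.CM

open Polynomial Finset

theorem exists_rel {κ : Type} [Fintype κ] (s D Δ : ℕ) (hs : Fintype.card κ ≤ s) (hΔ : s * D ≤ Δ)
    (P : κ → Fin (s + 1) → ℚ[X]) (hP : ∀ t m, (P t m).natDegree ≤ D) :
    ∃ l : Fin (s + 1) → ℚ[X], (∃ m, l m ≠ 0) ∧ (∀ m, (l m).natDegree ≤ Δ) ∧
      ∀ t, ∑ m, l m * P t m = 0 := by
  classical
  let v : Fin (s + 1) × Fin (Δ + 1) → κ × Fin (Δ + D + 1) → ℚ :=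
    fun u w => (X ^ (u.2 : ℕ) * P w.1 u.1).coeff w.2
  have hv : ¬LinearIndependent ℚ v := fun h => by
    have h1 := h.fintype_card_le_finrank
    simp only [Fintype.card_prod, Fintype.card_fin, Module.finrank_fintype_fun_eq_card] at h1
    have h2 := Nat.mul_le_mul_right (Δ + D + 1) hs
    nlinarith
  obtain ⟨g, hg, ⟨m0, d0⟩, h0⟩ := Fintype.not_linearIndependent_iff.1 hv
  have hd : ∀ m, (∑ d : Fin (Δ + 1), C (g (m, d)) * X ^ (d : ℕ)).natDegree ≤ Δ := fun m =>
    natDegree_sum_le_of_forall_le _ _ fun d _ =>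
      (natDegree_C_mul_X_pow_le _ _).trans (Nat.le_of_lt_succ d.2)
  refine ⟨fun m => ∑ d : Fin (Δ + 1), C (g (m, d)) * X ^ (d : ℕ), ⟨m0, fun h => h0 ?_⟩, hd,
    fun t => ?_⟩
  · have := congrArg (coeff · d0) h
    simp only [finsetSum_coeff, coeff_C_mul_X_pow, coeff_zero, Fin.val_inj] at this
    simpa using this
  · ext e
    by_cases he : e < Δ + D + 1
    · have := congrFun hg (t, ⟨e, he⟩)
      simp only [Finset.sum_apply, Pi.smul_apply, smul_eq_mul, Fintype.sum_prod_type, v,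
        Pi.zero_apply] at this
      simp only [finsetSum_coeff, sum_mul, mul_assoc, coeff_C_mul, coeff_zero]
      exact this
    · refine coeff_eq_zero_of_natDegree_lt (lt_of_le_of_lt (b := Δ + D) ?_ (by omega))
      exact natDegree_sum_le_of_forall_le _ _ fun m _ =>
        natDegree_mul_le.trans (add_le_add (hd m) (hP t m))

theorem ev_ne {p : ℚ[X]} (hp : p ≠ 0) (a : ℤ) {q : ℤ} (hq : q ≠ 0) :
    ∃ t0 : ℤ, ∀ t, t0 ≤ t → p.eval ((a + t * q : ℤ) : ℚ) ≠ 0 := by
  have h1 : {t : ℤ | p.IsRoot ((a + t * q : ℤ) : ℚ)}.Finite := by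
    refine Set.Finite.preimage (f := fun t : ℤ => ((a + t * q : ℤ) : ℚ)) (fun x _ y _ h => ?_)
      (s := {x | p.IsRoot x}) (p.finite_setOfPred_isRoot hp)
    have h2 : a + x * q = a + y * q := Int.cast_injective (α := ℚ) h
    exact mul_right_cancel₀ hq (add_left_cancel h2)
  obtain ⟨b, hb⟩ := h1.bddAbove
  exact ⟨b + 1, fun t ht h => by have := hb h; omega⟩

theorem rec_zero {s : ℕ} (l : Fin (s + 1) → ℚ[X]) (hl : ∃ m, l m ≠ 0) (a : ℤ) {q : ℤ} (hq : q ≠ 0)
    (t0 : ℤ) : ∃ τ : ℤ, ∀ u : ℤ → ℚ,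
      (∀ t, t0 ≤ t → ∑ m, (l m).eval ((a + t * q : ℤ) : ℚ) * u (t - (m : ℕ)) = 0) →
      (∀ j : Fin s, u (τ + (j : ℕ)) = 0) → ∀ t, τ ≤ t → u t = 0 := by
  classical
  obtain ⟨m1, h1, h2⟩ := (univ.filter fun m => l m ≠ 0).exists_min_image id
    (by obtain ⟨m, hm⟩ := hl; exact ⟨m, by simpa using hm⟩)
  simp only [mem_filter, mem_univ, true_and, id] at h1 h2
  obtain ⟨t1, ht1⟩ := ev_ne h1 a hq
  refine ⟨max t0 t1, fun u hu h0 => ?_⟩
  have key : ∀ N : ℕ, ∀ t, max t0 t1 ≤ t → t < max t0 t1 + N → u t = 0 := by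
    intro N
    induction N with
    | zero => intro t h h'; omega
    | succ N ih =>
      intro t h h'
      by_cases hs : t < max t0 t1 + s
      · have := h0 ⟨(t - max t0 t1).toNat, by omega⟩
        rwa [show max t0 t1 + ((t - max t0 t1).toNat : ℤ) = t by omega] at this
      have h3 := hu (t + (m1 : ℕ)) (by omega)
      rw [sum_eq_single m1 (fun m _ hm => ?_) (by simp), add_sub_cancel_right] at h3
      · exact (mul_eq_zero.1 h3).resolve_left (ht1 _ (by omega))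
      · by_cases hz : l m = 0
        · simp [hz]
        · have h4 : m1 < m := lt_of_le_of_ne (h2 m hz) (Ne.symm hm)
          have h5 : (m1 : ℕ) < m := h4
          have h6 := m.2
          rw [ih _ (by omega) (by push_cast at h'; omega), mul_zero]
  exact fun t ht => key ((t - max t0 t1).toNat + 1) t ht (by push_cast; omega)

theorem sol_poly {κ : Type} [Fintype κ] {s : ℕ} (hs : s ≤ Fintype.card κ) (P : κ → ℚ[X])
    (hP : LinearIndependent ℚ P) (l : Fin (s + 1) → ℚ[X]) (hl : ∃ m, l m ≠ 0) (a : ℤ) {q : ℤ}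
    (hq : q ≠ 0) (hk : ∀ t, ∑ m, l m * taylor (-((m : ℕ) * q : ℤ) : ℚ) (P t) = 0) (t0 : ℤ)
    (U : ℤ → ℚ)
    (hU : ∀ t, t0 ≤ t → ∑ m, (l m).eval ((a + t * q : ℤ) : ℚ) * U (t - (m : ℕ)) = 0) :
    ∃ (Q : ℚ[X]) (τ : ℤ), ∀ t, τ ≤ t → U t = Q.eval ((a + t * q : ℤ) : ℚ) := by
  classical
  obtain ⟨τ, hτ⟩ := rec_zero l hl a hq t0
  let w : Option κ → ℤ → ℚ := fun o t => o.elim (U t) fun i => (P i).eval ((a + t * q : ℤ) : ℚ)
  have hv : ¬LinearIndependent ℚ fun o (j : Fin s) => w o (τ + (j : ℕ)) := fun h => by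
    have h1 := h.fintype_card_le_finrank
    simp only [Fintype.card_option, Fintype.card_fin, Module.finrank_fintype_fun_eq_card] at h1
    omega
  obtain ⟨g, hg, o, ho⟩ := Fintype.not_linearIndependent_iff.1 hv
  have hw : ∀ o t, t0 ≤ t → ∑ m, (l m).eval ((a + t * q : ℤ) : ℚ) * w o (t - (m : ℕ)) = 0 := by
    rintro (_ | i) t ht
    · exact hU t ht
    · have := congrArg (eval ((a + t * q : ℤ) : ℚ)) (hk i)
      simp only [eval_finsetSum, eval_mul, taylor_eval, eval_zero] at this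
      refine Eq.trans (sum_congr rfl fun m _ => ?_) this
      simp only [w, Option.elim]
      congr 2
      push_cast; ring
  have h1 := hτ (fun t => ∑ o, g o * w o t) (fun t ht => by
    simp only [mul_sum]
    rw [sum_comm]
    refine sum_eq_zero fun o _ => ?_
    simp only [mul_left_comm _ (g o), ← mul_sum, hw o t ht, mul_zero]) fun j => by
      simpa using congrFun hg j
  have h2 : ∀ t, τ ≤ t →
      g none * U t + (∑ i, g (some i) • P i).eval ((a + t * q : ℤ) : ℚ) = 0 := fun t ht => by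
    have := h1 t ht
    simp only [Fintype.sum_option, w, Option.elim] at this
    simpa only [eval_finsetSum, eval_smul, smul_eq_mul] using this
  have h3 : g none ≠ 0 := fun h => by
    have h4 : ∑ i, g (some i) • P i = 0 := by_contra fun h5 => by
      obtain ⟨t1, ht1⟩ := ev_ne h5 a hq
      have := h2 (max τ t1) (le_max_left _ _)
      rw [h, zero_mul, zero_add] at this
      exact ht1 _ (le_max_right _ _) this
    rcases o with _ | i
    · exact ho h
    · exact ho (Fintype.linearIndependent_iff.1 hP _ h4 i)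
  refine ⟨C (-(g none)⁻¹) * ∑ i, g (some i) • P i, τ, fun t ht => ?_⟩
  have := h2 t ht
  rw [eval_mul, eval_C]
  field_simp
  linarith

theorem pn_poly (Q : ℚ[X]) : ∃ N : ℕ, ∀ (p : ℕ) [Fact p.Prime], N < p → ∀ x : ℤ,
    padicNorm p (Q.eval (x : ℚ)) ≤ 1 ∧
      padicNorm p (Q.eval ((x + p : ℤ) : ℚ) - Q.eval (x : ℚ)) < 1 := by
  obtain ⟨b, hb, h⟩ := IsLocalization.integerNormalization_spec (nonZeroDivisors ℤ) Q
  set R := IsLocalization.integerNormalization (nonZeroDivisors ℤ) Q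
  have hb0 : b ≠ 0 := nonZeroDivisors.ne_zero hb
  have e : ∀ x : ℤ, Q.eval (x : ℚ) = (R.eval x : ℤ) / (b : ℚ) := fun x => by
    have := congrArg (eval (x : ℚ)) h
    rw [eval_smul, eval_intCast_map] at this
    rw [eq_div_iff (by exact_mod_cast hb0)]
    simp only [eq_intCast, Int.cast_id, zsmul_eq_mul] at this
    linarith
  refine ⟨b.natAbs, fun p _ hp x => ?_⟩
  have h1 : padicNorm p (b : ℚ) = 1 := (padicNorm.int_eq_one_iff b).2 fun h => by
    have := Nat.le_of_dvd (Int.natAbs_pos.2 hb0) (Int.natCast_dvd.1 h)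
    omega
  refine ⟨by rw [e, padicNorm.div, h1, div_one]; exact padicNorm.of_int _, ?_⟩
  rw [e, e, ← sub_div, padicNorm.div, h1, div_one, ← Int.cast_sub, padicNorm.int_lt_one_iff]
  simpa using sub_dvd_eval_sub (x + p) x R

theorem pn_rat {r : ℚ} (hr : r ≠ 0) : ∃ N : ℕ, ∀ (p : ℕ) [Fact p.Prime], N < p →
    padicNorm p r = 1 := by
  refine ⟨r.num.natAbs + r.den, fun p _ hp => ?_⟩
  have h1 : padicNorm p (r.num : ℚ) = 1 := (padicNorm.int_eq_one_iff _).2 fun h => by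
    have := Nat.le_of_dvd (Int.natAbs_pos.2 (Rat.num_ne_zero.2 hr)) (Int.natCast_dvd.1 h)
    omega
  have h2 : padicNorm p (r.den : ℚ) = 1 := (padicNorm.nat_eq_one_iff _).2 fun h => by
    have := Nat.le_of_dvd r.den_pos h
    omega
  rw [← Rat.num_div_den r, padicNorm.div, h1, h2, div_one]

theorem pn_pow (p : ℕ) [Fact p.Prime] (r : ℚ) (k : ℕ) :
    padicNorm p (r ^ k) = padicNorm p r ^ k := by
  induction k with
  | zero => simp
  | succ k ih => rw [pow_succ, padicNorm.mul, ih, pow_succ]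

/-- Sums of `1 / (y - x) ^ k` over different classes modulo `q` are independent over `ℚ(x)`. -/
theorem indep {q k : ℕ} (hk : 0 < k) (lo : ℤ) {ι : Type} [Fintype ι] {β : ι → Fin q}
    (hβ : Function.Injective β) (P : ι → ℚ[X])
    (h : ∀ a : ℤ, ∃ (Q : ℚ[X]) (τ : ℤ), ∀ t, τ ≤ t →
      ∑ b, (P b).eval ((a + t * q : ℤ) : ℚ) *
        ∑ i ∈ Ico lo t, 1 / (((β b : ℕ) + i * q - (a + t * q) : ℤ) : ℚ) ^ k =
        Q.eval ((a + t * q : ℤ) : ℚ)) (b : ι) : P b = 0 := by
  classical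
  by_contra hb
  have hq : 0 < q := (β b).pos
  have hq0 : (q : ℤ) ≠ 0 := by omega
  obtain ⟨i1, hi1⟩ := ev_ne hb (β b : ℕ) hq0
  obtain ⟨i0, h1, h2⟩ : ∃ i0, lo ≤ i0 ∧ (P b).eval (((β b : ℕ) + i0 * q : ℤ) : ℚ) ≠ 0 :=
    ⟨max lo i1, le_max_left _ _, hi1 _ (le_max_right _ _)⟩
  choose Q τ hQ using h
  choose N1 hN1 using pn_poly
  obtain ⟨N2, hN2⟩ := pn_rat h2
  obtain ⟨p, hp1, hp⟩ := Nat.exists_infinite_primes (N2 + 1 + ∑ c, N1 (P c) +
    ∑ c : Fin q, N1 (Q (c : ℕ)) + q * (1 + (i0 - lo).toNat + ∑ c : Fin q, (τ (c : ℕ) - i0).toNat))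
  have := Fact.mk hp
  let a : Fin q := ⟨((β b : ℕ) + p) % q, Nat.mod_lt _ hq⟩
  set u : ℕ := ((β b : ℕ) + p) / q with hu
  have e1 : ((a : ℕ) : ℤ) + (u : ℤ) * q = (β b : ℕ) + p := by
    have := Nat.mod_add_div ((β b : ℕ) + p) q
    rw [mul_comm]; exact_mod_cast this
  have e2 : ((a : ℕ) : ℤ) + (i0 + u) * q = (β b : ℕ) + i0 * q + p := by linarith
  have l1 := single_le_sum (f := fun c : Fin q => (τ (c : ℕ) - i0).toNat)
    (fun _ _ => Nat.zero_le _) (mem_univ a)
  have l2 := single_le_sum (f := fun c : Fin q => N1 (Q (c : ℕ)))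
    (fun _ _ => Nat.zero_le _) (mem_univ a)
  have l3 := fun c => single_le_sum (f := fun c => N1 (P c))
    (fun _ _ => Nat.zero_le _) (mem_univ c)
  have l4 : 1 + (i0 - lo).toNat + ∑ c : Fin q, (τ (c : ℕ) - i0).toNat ≤ u :=
    (Nat.le_div_iff_mul_le hq).2 (by rw [mul_comm]; omega)
  have l5 : (q : ℤ) * (1 + (i0 - lo)) < p := by
    have h3 : q * (1 + (i0 - lo).toNat) < p :=
      lt_of_le_of_lt (Nat.mul_le_mul_left q (Nat.le_add_right _
        (∑ c : Fin q, (τ (c : ℕ) - i0).toNat))) (by omega)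
    have h4 : ((i0 - lo).toNat : ℤ) = i0 - lo := by omega
    rw [← h4]; exact_mod_cast h3
  have h5 := hQ (a : ℕ) (i0 + u) (by omega)
  simp only [mul_sum] at h5
  rw [← sum_product' (f := fun (c : ι) i => (P c).eval _ * (1 / (((β c : ℕ) + i * q -
    ((a : ℕ) + (i0 + u) * q) : ℤ) : ℚ) ^ k)), ← add_sum_erase _ _ (a := (b, i0))
    (by simp only [mem_product, mem_univ, mem_Ico, true_and]; omega), e2] at h5
  have h6 := eq_sub_of_add_eq h5
  have h7 : padicNorm p ((P b).eval (((β b : ℕ) + i0 * q + p : ℤ) : ℚ)) = 1 := by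
    have h8 := (hN1 (P b) p (by have := l3 b; omega) ((β b : ℕ) + i0 * q)).2
    have h9 := hN2 p (by omega)
    rw [← sub_add_cancel ((P b).eval (((β b : ℕ) + i0 * q + p : ℤ) : ℚ))
      ((P b).eval (((β b : ℕ) + i0 * q : ℤ) : ℚ)), padicNorm.add_eq_max_of_ne (by rw [h9]; exact h8.ne),
      h9, max_eq_right h8.le]
  have h10 := congrArg (padicNorm p) h6
  rw [padicNorm.mul, h7, one_mul, show ((β b : ℕ) + i0 * q - ((β b : ℕ) + i0 * q + p) : ℤ) = -p by ring,
    padicNorm.div, pn_pow, Int.cast_neg, padicNorm.neg, Int.cast_natCast,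
    padicNorm.padicNorm_p_of_prime, padicNorm.one, one_div, inv_pow, inv_inv] at h10
  have h11 : (1 : ℚ) < (p : ℚ) ^ k := one_lt_pow₀ (by exact_mod_cast hp.one_lt) hk.ne'
  refine absurd h11 (not_lt.2 (h10 ▸ padicNorm.sub.trans (max_le
    (hN1 _ p (by omega) _).1 (padicNorm.sum_le' (fun c hc => ?_) zero_le_one))))
  obtain ⟨c1, c2⟩ := mem_erase.1 hc
  obtain ⟨c3, c4⟩ := mem_Ico.1 (mem_product.1 c2).2
  have h12 : padicNorm p (((β c.1 : ℕ) + c.2 * q - ((β b : ℕ) + i0 * q + p) : ℤ) : ℚ) = 1 := by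
    refine (padicNorm.int_eq_one_iff _).2 fun ⟨w, hw⟩ => c1 ?_
    have b1 : ((β c.1 : ℕ) : ℤ) < q := by exact_mod_cast (β c.1).2
    have b2 : ((β b : ℕ) : ℤ) < q := by exact_mod_cast (β b).2
    have b3 : c.2 * q ≤ (i0 + u - 1) * q := mul_le_mul_of_nonneg_right (by omega) (by omega)
    have b4 : lo * q ≤ c.2 * q := mul_le_mul_of_nonneg_right c3 (by omega)
    have b5 : (0 : ℤ) < p := by exact_mod_cast hp.pos
    have b6 : p * w < p * 0 := by nlinarith
    have b7 : p * (-2) < p * w := by nlinarith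
    have b8 : w = -1 := by
      have := lt_of_mul_lt_mul_left b6 b5.le
      have := lt_of_mul_lt_mul_left b7 b5.le
      omega
    have b9 : (c.2 - i0) * q = (β b : ℕ) - (β c.1 : ℕ) := by rw [b8] at hw; linarith
    have b10 : c.2 = i0 := by
      rcases lt_trichotomy c.2 i0 with h | h | h
      · nlinarith
      · exact h
      · nlinarith
    rw [b10] at b9
    exact Prod.ext (hβ (Fin.ext (show (β c.1 : ℕ) = β b by
      rw [sub_self, zero_mul] at b9; omega))) b10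
  rw [padicNorm.mul, padicNorm.div, pn_pow, h12, padicNorm.one, one_pow, div_one, mul_one]
  exact (hN1 _ p (by have := l3 c.1; omega) _).1

end Pool.Agent.Lib.MP_12eca1_ag.CM
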