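import Pool.Agent.Lib.MP_12eca1_ag.C.Rel

/-! The zero estimate for the test vectors. -/

namespace Pool.Agent.Lib.MP_12eca1_ag.CM

open Polynomial Finset

def wi (q : ℕ) (b : ℤ) (s : Finset ℤ) (x : ℤ) : ℤ := ∏ i ∈ s, (b + i * q - x)

def r0 (q k : ℕ) (b : ℤ) (s : Finset ℤ) (x : ℤ) : ℤ :=
  ∑ i ∈ s, (1 + (b + i * q - x).sign) * wi q b (s.erase i) x ^ k

noncomputable def Wp (q : ℕ) (b : ℤ) (s : Finset ℤ) : ℚ[X] :=
  ∏ i ∈ s, (C ((b + i * q : ℤ) : ℚ) - X)

variable {q k : ℕ} {b : ℤ}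

theorem Wp_eval (s : Finset ℤ) (x : ℤ) : (Wp q b s).eval (x : ℚ) = wi q b s x := by
  simp [Wp, wi, eval_prod]

theorem wi_shift (s : Finset ℤ) (x m : ℤ) :
    wi q b s (x - m * q) = wi q b (s.map (addRightEmbedding m)) x := by
  rw [wi, wi, prod_map]
  exact prod_congr rfl fun i _ => by simp only [addRightEmbedding_apply]; ring

theorem r0_shift (s : Finset ℤ) (x m : ℤ) :
    r0 q k b s (x - m * q) = r0 q k b (s.map (addRightEmbedding m)) x := by
  rw [r0, r0, sum_map]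
  refine sum_congr rfl fun i _ => ?_
  rw [wi_shift, map_erase]
  simp only [addRightEmbedding_apply]
  congr 3; ring

theorem Wp_taylor (s : Finset ℤ) (m : ℤ) :
    taylor (-(m * q : ℤ) : ℚ) (Wp q b s) = Wp q b (s.map (addRightEmbedding m)) := by
  rw [Wp, Wp, prod_map, taylor_apply, Polynomial.prod_comp]
  refine prod_congr rfl fun i _ => ?_
  simp only [sub_comp, C_comp, X_comp, addRightEmbedding_apply]
  rw [← sub_sub, sub_right_comm, ← C_sub]
  congr 2; push_cast; ring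

theorem Wp_deg (s : Finset ℤ) : (Wp q b s).natDegree ≤ s.card := by
  refine (natDegree_prod_le _ _).trans ?_
  rw [card_eq_sum_ones]
  exact sum_le_sum fun i _ => by compute_degree

theorem lin_ne (c : ℚ) : (C c - X : ℚ[X]) ≠ 0 := by
  rw [← neg_sub]; exact neg_ne_zero.2 (X_sub_C_ne_zero c)

theorem Wp_ne (s : Finset ℤ) : Wp q b s ≠ 0 := prod_ne_zero_iff.2 fun _ _ => lin_ne _

theorem cls_inj (a c : Fin q) {s t : ℤ} (h : ((a : ℕ) : ℤ) + s * q = (c : ℕ) + t * q) :
    a = c ∧ s = t := by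
  have a1 : ((a : ℕ) : ℤ) < q := by exact_mod_cast a.2
  have c1 : ((c : ℕ) : ℤ) < q := by exact_mod_cast c.2
  have e : s = t := by
    rcases lt_trichotomy s t with h' | h' | h'
    · nlinarith
    · exact h'
    · nlinarith
  exact ⟨Fin.ext (by rw [e] at h; omega), e⟩

theorem prod_Ico_split {M : Type*} [CommMonoid M] (f : ℤ → M) {a c d : ℤ} (h1 : a ≤ c)
    (h2 : c ≤ d) : ∏ i ∈ Ico a d, f i = (∏ i ∈ Ico a c, f i) * ∏ i ∈ Ico c d, f i := by
  rw [← prod_union (Ico_disjoint_Ico_consecutive a c d), Ico_union_Ico_eq_Ico h1 h2]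

theorem sum_Ico_split {M : Type*} [AddCommMonoid M] (f : ℤ → M) {a c d : ℤ} (h1 : a ≤ c)
    (h2 : c ≤ d) : ∑ i ∈ Ico a d, f i = (∑ i ∈ Ico a c, f i) + ∑ i ∈ Ico c d, f i := by
  rw [← sum_union (Ico_disjoint_Ico_consecutive a c d), Ico_union_Ico_eq_Ico h1 h2]

theorem zero_est {n n' J S N : ℕ} (hk : 0 < k) (hnn : n ≤ n') (hqn : S ≤ n)
    (hn : S * (J + k * S) + (J + k * (8 * n')) + N * S < N * (2 * n))
    {β : Fin S → Fin q} {π : Fin N → Fin q} (hβ : Function.Injective β)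
    (hπ : Function.Injective π) (z : ℤ → ℚ)
    (hz : ∀ c m : ℤ, z (c + m * q) = z c) (A : Fin S → ℚ[X]) (hA : ∀ b, (A b).natDegree ≤ J)
    (h : ∀ (p : Fin N) (t x : ℤ), -(n : ℤ) ≤ t → t < n → x = (π p : ℕ) + t * q →
      ∑ b, (A b).eval (x : ℚ) *
      ((wi q (β b : ℕ) (Ico (-(4 * n')) (4 * n')) x : ℚ) ^ k * z ((β b : ℕ) - x) -
        r0 q k (β b : ℕ) (Ico (-(4 * n')) (4 * n')) x) = 0) (b : Fin S) : A b = 0 := by
  classical
  set lo : ℤ := -(4 * n') with hlo
  set hi : ℤ := 4 * n' with hhi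
  have hq0 : 0 < q := (β b).pos
  let P : Fin S → ℚ[X] := fun b => A b * Wp q (β b : ℕ) (Ico lo hi) ^ k
  obtain ⟨κ, a, ha, hsp, hli⟩ := exists_linearIndependent' ℚ P
  have := Fintype.ofInjective a ha
  set s := Fintype.card κ with hs
  have hsq : s ≤ S := by simpa using Fintype.card_le_of_injective a ha
  have hm : ∀ m : Fin (s + 1), ((m : ℕ) : ℤ) ≤ S := fun m => by have := m.2; omega
  let sh : Fin (s + 1) → ℚ[X] →ₗ[ℚ] ℚ[X] := fun m => taylor (-((m : ℕ) * q : ℤ) : ℚ)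
  let I : Fin (s + 1) → Finset ℤ := fun m => Ico (lo + (m : ℕ)) (hi + (m : ℕ))
  have hP : ∀ m b, sh m (P b) = sh m (A b) * Wp q (β b : ℕ) (I m) ^ k := fun m b => by
    simp only [sh, P, I, taylor_mul, taylor_pow, Wp_taylor, map_add_right_Ico]
  have hs1 : ∀ m b, (sh m (A b)).natDegree ≤ J := fun m b => (natDegree_taylor _ _).le.trans (hA b)
  obtain ⟨l, l1, l2, l3⟩ := exists_rel s (J + k * S) (S * (J + k * S)) le_rfl
    (Nat.mul_le_mul_right _ hsq) (fun t m => sh m (A (a t)) *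
      (Wp q (β (a t) : ℕ) (Ico (lo + (m : ℕ)) (lo + S)) * Wp q (β (a t) : ℕ) (Ico hi (hi + (m : ℕ)))) ^ k)
    fun t m => natDegree_mul_le.trans (add_le_add (hs1 _ _) (natDegree_pow_le.trans
      (Nat.mul_le_mul_left _ (natDegree_mul_le.trans ((add_le_add (Wp_deg _) (Wp_deg _)).trans
        (by have := hm m; simp only [Int.card_Ico]; omega))))))
  have k0 : ∀ t, ∑ m, l m * sh m (P (a t)) = 0 := fun t => by
    have := congrArg (Wp q (β (a t) : ℕ) (Ico (lo + S) hi) ^ k * ·) (l3 t)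
    simp only [mul_sum, mul_zero] at this
    refine Eq.trans (sum_congr rfl fun m _ => ?_) this
    have := hm m
    rw [hP, Wp, prod_Ico_split _ (c := lo + S) (by omega) (by omega),
      prod_Ico_split _ (a := lo + S) (c := hi) (by omega) (by omega)]
    simp only [Wp]; ring
  have k1 : ∀ b, ∑ m, l m * sh m (P b) = 0 := fun b => by
    have h1 : P b ∈ Submodule.span ℚ (Set.range (P ∘ a)) :=
      hsp ▸ Submodule.subset_span ⟨b, rfl⟩
    refine Submodule.span_induction (p := fun p _ => ∑ m, l m * sh m p = 0) ?_ (by simp)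
      (fun x y _ _ hx hy => by simp only [map_add, mul_add, sum_add_distrib, hx, hy, add_zero])
      (fun c x _ hx => by simp only [map_smul, mul_smul_comm, ← smul_sum, hx, smul_zero]) h1
    rintro _ ⟨t, rfl⟩
    exact k0 t
  have er : ∀ m (b : Fin S), ∀ i ∈ I m, Wp q (β b : ℕ) (I m) =
      (C (((β b : ℕ) + i * q : ℤ) : ℚ) - X) * Wp q (β b : ℕ) ((I m).erase i) := fun m b i hi =>
    (mul_prod_erase _ (fun i => (C (((β b : ℕ) + i * q : ℤ) : ℚ) - X)) hi).symm
  have k2 : ∀ (b : Fin S), ∀ i ∈ Ico (lo + S) hi,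
      ∑ m, l m * (sh m (A b) * Wp q (β b : ℕ) ((I m).erase i) ^ k) = 0 := fun b i hi => by
    refine (mul_eq_zero.1 ?_).resolve_left (pow_ne_zero k (lin_ne (((β b : ℕ) + i * q : ℤ) : ℚ)))
    rw [mul_sum, ← k1 b]
    refine sum_congr rfl fun m _ => ?_
    have := hm m
    rw [hP, er m b i (by simp only [I, mem_Ico] at hi ⊢; omega), mul_pow]; ring
  let R : ℚ[X] := ∑ b, ∑ m, l m * (sh m (A b) *
    ∑ i ∈ Ico hi (hi + (m : ℕ)), Wp q (β b : ℕ) ((I m).erase i) ^ k)
  have hR : R = 0 := by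
    refine eq_zero_of_natDegree_lt_card_of_eval_eq_zero R
      (f := fun u : Fin N × Ico (S - n : ℤ) n => (((π u.1 : ℕ) + u.2.1 * q : ℤ) : ℚ))
      (fun u v huv => ?_) (fun ⟨p, t, ht⟩ => ?_)
      (lt_of_le_of_lt (b := S * (J + k * S) + (J + k * (8 * n'))) ?_ ?_)
    · obtain ⟨e1, e2⟩ := cls_inj _ _ (Int.cast_injective (α := ℚ) huv)
      exact Prod.ext (hπ e1) (Subtype.ext e2)
    · obtain ⟨t1, t2⟩ := mem_Ico.1 ht
      obtain ⟨x, hx⟩ : ∃ x : ℤ, x = (π p : ℕ) + t * q := ⟨_, rfl⟩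
      have x0 : ((π p : ℕ) : ℤ) < q := by exact_mod_cast (π p).2
      have x1 : (S - n : ℤ) * q ≤ x := by nlinarith
      have x2 : x ≤ q * n := by nlinarith
      simp only [← hx]
      have h1 : ∑ m : Fin (s + 1), (l m).eval (x : ℚ) * ∑ b, (sh m (A b)).eval (x : ℚ) *
          ((wi q (β b : ℕ) (I m) x : ℚ) ^ k * z ((β b : ℕ) - x) - r0 q k (β b : ℕ) (I m) x) = 0 := by
        refine sum_eq_zero fun m _ => mul_eq_zero_of_right _ ?_
        have := hm m
        have h2 := h p (t - (m : ℕ)) (x - (m : ℕ) * q) (by omega) (by omega) (by rw [hx]; ring)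
        refine Eq.trans (sum_congr rfl fun b _ => ?_) h2
        rw [wi_shift, r0_shift, map_add_right_Ico, taylor_eval,
          show ((β b : ℕ) : ℤ) - (x - (m : ℕ) * q) = (β b : ℕ) - x + (m : ℕ) * q by ring, hz]
        simp only [I, sub_eq_add_neg]
        push_cast; rfl
      simp only [mul_sum] at h1
      rw [sum_comm] at h1
      refine (mul_eq_zero.1 (Eq.trans ?_ h1)).resolve_left (show (-2 : ℚ) ≠ 0 by norm_num)
      simp only [R, eval_finsetSum, mul_sum]
      refine sum_congr rfl fun b _ => ?_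
      have b1 : ((β b : ℕ) : ℤ) < q := by exact_mod_cast (β b).2
      have e1 := congrArg (fun p => eval (x : ℚ) p * z ((β b : ℕ) - x)) (k1 b)
      have e2 : ∑ i ∈ Ico (lo + S) hi, ((1 + (((β b : ℕ) : ℤ) + i * q - x).sign : ℤ) : ℚ) *
          eval (x : ℚ) (∑ m, l m * (sh m (A b) * Wp q (β b : ℕ) ((I m).erase i) ^ k)) = 0 :=
        sum_eq_zero fun i hi => by rw [k2 b i hi, eval_zero, mul_zero]
      simp only [hP, eval_finsetSum, eval_mul, eval_pow, Wp_eval, eval_zero, zero_mul, sum_mul,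
        mul_sum] at e1 e2 ⊢
      rw [sum_comm] at e2
      rw [← sub_zero (∑ _, _), ← e2, ← zero_add (_ - _), ← e1, ← add_sub_assoc, ← sum_add_distrib,
        ← sum_sub_distrib]
      refine sum_congr rfl fun m _ => ?_
      have := hm m
      have e3 : (r0 q k (β b : ℕ) (I m) x : ℚ) = ∑ i ∈ Ico (lo + S) hi,
          ((1 + (((β b : ℕ) : ℤ) + i * q - x).sign : ℤ) : ℚ) *
            (wi q (β b : ℕ) ((I m).erase i) x : ℚ) ^ k +
          ∑ i ∈ Ico hi (hi + (m : ℕ)), 2 * (wi q (β b : ℕ) ((I m).erase i) x : ℚ) ^ k := by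
        rw [r0, sum_Ico_split _ (c := lo + S) (by omega) (by omega),
          sum_Ico_split _ (a := lo + S) (c := hi) (by omega) (by omega),
          sum_eq_zero (s := Ico _ (lo + S)) fun i hi => by
            have h3 : i * q ≤ (lo + S - 1) * q :=
              mul_le_mul_of_nonneg_right (by have := (mem_Ico.1 hi).2; omega) (by omega)
            rw [Int.sign_eq_neg_one_of_neg (by nlinarith)]; simp]
        push_cast
        rw [zero_add]
        refine congrArg _ (sum_congr rfl fun i hi' => ?_)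
        have h3 : hi * q ≤ i * q := mul_le_mul_of_nonneg_right (mem_Ico.1 hi').1 (by omega)
        rw [Int.sign_eq_one_of_pos (by nlinarith)]; norm_num
      rw [e3]
      simp only [mul_add, mul_sub, mul_sum]
      have e4 : ∀ f g : ℤ → ℚ, ∀ s t : Finset ℤ, ∀ u v w : ℚ,
          u * (v * w) + ∑ i ∈ s, -2 * (u * (v * f i)) - ∑ i ∈ t, g i * (u * (v * f i)) =
          u * (v * w) - (∑ i ∈ t, u * (v * (g i * f i)) + ∑ i ∈ s, u * (v * (2 * f i))) := by
        intro f g s t u v w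
        simp only [mul_left_comm (g _), mul_left_comm (-2 : ℚ), ← mul_sum]; ring
      rw [← e4]; ring
    · refine natDegree_sum_le_of_forall_le _ _ fun b _ =>
        natDegree_sum_le_of_forall_le _ _ fun m _ => natDegree_mul_le.trans (add_le_add (l2 m)
          (natDegree_mul_le.trans (add_le_add (hs1 _ _) (natDegree_sum_le_of_forall_le _ _
            fun i _ => natDegree_pow_le.trans (Nat.mul_le_mul_left _ ((Wp_deg _).trans
              (card_erase_le.trans (by simp only [I, Int.card_Ico]; omega))))))))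
    · rw [Fintype.card_prod, Fintype.card_fin, Fintype.card_coe, Int.card_Ico]
      have h3 : ((n : ℤ) - (S - n)).toNat + S = 2 * n := by omega
      have h4 := congrArg (N * ·) h3
      nlinarith
  have hP0 := indep hk hi hβ P (fun c => sol_poly le_rfl (P ∘ a) hli l l1 c
    (q := q) (by omega) k0 (hi + S + |c|) (fun t => ∑ b,
      (P b).eval ((c + t * q : ℤ) : ℚ) *
        ∑ i ∈ Ico hi t, 1 / (((β b : ℕ) + i * q - (c + t * q) : ℤ) : ℚ) ^ k) fun t ht => ?_) b
  · exact (mul_eq_zero.1 hP0).resolve_right (pow_ne_zero _ (Wp_ne _))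
  have e0 := congrArg (fun p => -eval ((c + t * q : ℤ) : ℚ) p) hR
  simp only [mul_sum]
  rw [sum_comm]
  simp only [R, eval_finsetSum, eval_zero, neg_zero, ← sum_neg_distrib] at e0
  refine Eq.trans (sum_congr rfl fun b _ => ?_) e0
  have b1 : ((β b : ℕ) : ℤ) < q := by exact_mod_cast (β b).2
  have e1 := congrArg (fun p => eval ((c + t * q : ℤ) : ℚ) p *
    ∑ i ∈ Ico hi t, 1 / (((β b : ℕ) + i * q - (c + t * q) : ℤ) : ℚ) ^ k) (k1 b)
  simp only [eval_finsetSum, eval_zero, zero_mul, sum_mul] at e1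
  rw [← zero_add (∑ _, - _), ← e1, ← sum_add_distrib]
  refine sum_congr rfl fun m _ => ?_
  have := hm m
  have hc := abs_nonneg c
  have e2 : ∑ i ∈ Ico hi (t - (m : ℕ)),
      1 / (((β b : ℕ) + i * q - (c + (t - (m : ℕ)) * q) : ℤ) : ℚ) ^ k =
      ∑ i ∈ Ico (hi + (m : ℕ)) t, 1 / (((β b : ℕ) + i * q - (c + t * q) : ℤ) : ℚ) ^ k := by
    conv_rhs => rw [← sub_add_cancel t (m : ℕ), ← map_add_right_Ico, sum_map]
    refine sum_congr rfl fun i _ => ?_
    simp only [addRightEmbedding_apply]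
    congr 3; ring
  have e3 : (P b).eval ((c + (t - (m : ℕ)) * q : ℤ) : ℚ) =
      (sh m (P b)).eval ((c + t * q : ℤ) : ℚ) := by
    rw [taylor_eval]; congr 1; push_cast; ring
  rw [← mul_sum, ← mul_sum, e2, e3, sum_Ico_split _ (a := hi) (c := hi + (m : ℕ)) (d := t)
    (by omega) (by omega)]
  have e4 : (sh m (P b)).eval ((c + t * q : ℤ) : ℚ) * ∑ i ∈ Ico hi (hi + (m : ℕ)),
      1 / (((β b : ℕ) + i * q - (c + t * q) : ℤ) : ℚ) ^ k = (sh m (A b) *
        ∑ i ∈ Ico hi (hi + (m : ℕ)), Wp q (β b : ℕ) ((I m).erase i) ^ k).eval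
          ((c + t * q : ℤ) : ℚ) := by
    rw [eval_mul, eval_finsetSum, mul_sum, mul_sum]
    refine sum_congr rfl fun i hi' => ?_
    obtain ⟨i1, i2⟩ := mem_Ico.1 hi'
    have h3 : (i + 1 + |c|) * q ≤ t * q := mul_le_mul_of_nonneg_right (by omega) (by omega)
    have h4 : |c| * 1 ≤ |c| * q := mul_le_mul_of_nonneg_left (by omega) hc
    have h5 := neg_abs_le c
    have h6 : (((β b : ℕ) + i * q - (c + t * q) : ℤ) : ℚ) ≠ 0 :=
      Int.cast_ne_zero.2 (by nlinarith [h3, h4, h5, b1] : _ < (0 : ℤ)).ne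
    rw [hP, er m b i (by simp only [I, mem_Ico]; omega)]
    simp only [eval_mul, eval_pow, eval_sub, eval_C, eval_X, ← Int.cast_sub, mul_pow]
    field_simp
  simp only [eval_mul] at e4 ⊢
  rw [← e4]; ring

end Pool.Agent.Lib.MP_12eca1_ag.CM
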